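import Mathlib
import Pool.Agent.Helper292.ForceCH

/-!
# Systems of retractions on the levels of `ω₁ × ℕ`

`c l y` is the colour given at level `l` to the point `y` of a lower level. The retraction `rt c l`
maps the points `y` of the levels below `l` to `(l, c l y)` and fixes the other points. The cone
below `x` is the set of the points mapped to `x` by the retraction to the level of `x`.
-/

set_option autoImplicit false

open Set

namespace Pool.Agent.TH567.Dia

open Pool.Agent.Helper292.ForceCH (Om exists_bound countable_Iio ub lt_ub ub_le)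

/-- the points: level and number -/
abbrev Pt : Type := Om × ℕ

/-- the retraction onto the levels `≥ l` -/
noncomputable def rt (c : Om → Pt → ℕ) (l : Om) (y : Pt) : Pt :=
  open Classical in if y.1 < l then (l, c l y) else y

variable {c : Om → Pt → ℕ}

lemma rt_lt {l : Om} {y : Pt} (h : y.1 < l) : rt c l y = (l, c l y) := by
  unfold rt; rw [if_pos h]

lemma rt_ge {l : Om} {y : Pt} (h : l ≤ y.1) : rt c l y = y := by
  unfold rt; rw [if_neg (not_lt.2 h)]

lemma le_rt (l : Om) (y : Pt) : l ≤ (rt c l y).1 := by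
  rcases lt_or_ge y.1 l with h | h
  · rw [rt_lt h]
  · rw [rt_ge h]; exact h

lemma le_rt' (l : Om) (y : Pt) : y.1 ≤ (rt c l y).1 := by
  rcases lt_or_ge y.1 l with h | h
  · rw [rt_lt h]; exact h.le
  · rw [rt_ge h]

lemma rt_lev_lt {l L : Om} {y : Pt} (h : l < L) (hy : y.1 < L) : (rt c l y).1 < L := by
  rcases lt_or_ge y.1 l with h1 | h1
  · rw [rt_lt h1]; exact h
  · rw [rt_ge h1]; exact hy

lemma rt_idem (l : Om) (y : Pt) : rt c l (rt c l y) = rt c l y := rt_ge (le_rt l y)

/-- the cone below `x` -/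
def cone (c : Om → Pt → ℕ) (x : Pt) : Set Pt := {y | rt c x.1 y = x}

lemma mem_cone {x y : Pt} : y ∈ cone c x ↔ rt c x.1 y = x := Iff.rfl

lemma self_mem (x : Pt) : x ∈ cone c x := rt_ge le_rfl

lemma mem_cone_lt {x y : Pt} (h : y.1 < x.1) : y ∈ cone c x ↔ c x.1 y = x.2 := by
  rw [mem_cone, rt_lt h]
  constructor
  · intro h'
    have := congrArg Prod.snd h'
    exact this
  · intro h'
    rw [h']

lemma mem_cone_ge {x y : Pt} (h : x.1 ≤ y.1) : y ∈ cone c x ↔ y = x := by
  rw [mem_cone, rt_ge h]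

lemma cone_cases {x y : Pt} (h : y ∈ cone c x) : y = x ∨ (y.1 < x.1 ∧ c x.1 y = x.2) := by
  rcases lt_or_ge y.1 x.1 with h1 | h1
  · exact Or.inr ⟨h1, (mem_cone_lt h1).1 h⟩
  · exact Or.inl ((mem_cone_ge h1).1 h)

lemma cone_le {x y : Pt} (h : y ∈ cone c x) : y.1 ≤ x.1 := by
  rcases cone_cases h with rfl | h
  · exact le_rfl
  · exact h.1.le

/-- `S` is covered by finitely many cones of points of the levels below `l` -/
def Small (c : Om → Pt → ℕ) (l : Om) (S : Set Pt) : Prop :=
  ∃ E : Finset Pt, (∀ x ∈ E, x.1 < l) ∧ ∀ z ∈ S, ∃ x ∈ E, z ∈ cone c x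

lemma Small.mono {l : Om} {S S' : Set Pt} (h : Small c l S) (h' : S' ⊆ S) : Small c l S' := by
  obtain ⟨E, h1, h2⟩ := h
  exact ⟨E, h1, fun z hz => h2 z (h' hz)⟩

lemma Small.level {l l' : Om} {S : Set Pt} (h : Small c l S) (h' : l ≤ l') : Small c l' S := by
  obtain ⟨E, h1, h2⟩ := h
  exact ⟨E, fun x hx => (h1 x hx).trans_le h', h2⟩

lemma small_empty (l : Om) : Small c l ∅ := ⟨∅, by simp, by simp⟩

lemma small_cone {l : Om} {x : Pt} (h : x.1 < l) : Small c l (cone c x) :=
  ⟨{x}, by simpa using h, fun z hz => ⟨x, by simp, hz⟩⟩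

lemma Small.union {l : Om} {S S' : Set Pt} (h : Small c l S) (h' : Small c l S') :
    Small c l (S ∪ S') := by
  classical
  obtain ⟨E, h1, h2⟩ := h
  obtain ⟨E', h1', h2'⟩ := h'
  refine ⟨E ∪ E', ?_, ?_⟩
  · intro x hx
    rcases Finset.mem_union.1 hx with hx | hx
    · exact h1 x hx
    · exact h1' x hx
  · rintro z (hz | hz)
    · obtain ⟨x, hx, hzx⟩ := h2 z hz
      exact ⟨x, Finset.mem_union_left _ hx, hzx⟩
    · obtain ⟨x, hx, hzx⟩ := h2' z hz
      exact ⟨x, Finset.mem_union_right _ hx, hzx⟩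

lemma Small.biUnion {ι : Type} {l : Om} (E : Finset ι) (S : ι → Set Pt)
    (h : ∀ i ∈ E, Small c l (S i)) : Small c l (⋃ i ∈ E, S i) := by
  classical
  induction E using Finset.induction_on with
  | empty => simpa using small_empty l
  | insert a E ha ih =>
    rw [Finset.set_biUnion_insert]
    exact (h a (Finset.mem_insert_self _ _)).union
      (ih fun i hi => h i (Finset.mem_insert_of_mem hi))

lemma Small.lt {l : Om} {S : Set Pt} (h : Small c l S) {z : Pt} (hz : z ∈ S) : z.1 < l := by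
  obtain ⟨E, h1, h2⟩ := h
  obtain ⟨x, hx, hzx⟩ := h2 z hz
  exact (cone_le hzx).trans_lt (h1 x hx)

lemma small_finite {l : Om} (S : Set Pt) (hS : S.Finite) (h : ∀ z ∈ S, z.1 < l) :
    Small c l S := by
  refine ⟨hS.toFinset, fun x hx => h x (by simpa using hx), fun z hz => ⟨z, by simpa using hz,
    self_mem z⟩⟩

/-- the error set -/
def Df (c : Om → Pt → ℕ) (m l : Om) : Set Pt := {z | z.1 < m ∧ c l z ≠ c l (rt c m z)}

/-- the condition on the system -/
def Sys (c : Om → Pt → ℕ) : Prop := ∀ m l, m < l → Small c m (Df c m l)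

/-- open sets -/
def Opn (c : Om → Pt → ℕ) (S : Set Pt) : Prop := ∀ y ∈ S, Small c y.1 (cone c y \ S)

lemma Opn.union {S S' : Set Pt} (h : Opn c S) (h' : Opn c S') : Opn c (S ∪ S') := by
  rintro y (hy | hy)
  · exact (h y hy).mono (fun z hz => ⟨hz.1, fun h => hz.2 (Or.inl h)⟩)
  · exact (h' y hy).mono (fun z hz => ⟨hz.1, fun h => hz.2 (Or.inr h)⟩)

lemma Opn.sUnion {C : Set (Set Pt)} (h : ∀ S ∈ C, Opn c S) : Opn c (⋃₀ C) := by
  rintro y ⟨S, hS, hy⟩
  exact (h S hS y hy).mono (fun z hz => ⟨hz.1, fun h => hz.2 ⟨S, hS, h⟩⟩)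

lemma Opn.inter {S S' : Set Pt} (h : Opn c S) (h' : Opn c S') : Opn c (S ∩ S') := by
  rintro y ⟨hy, hy'⟩
  refine ((h y hy).union (h' y hy')).mono ?_
  rintro z ⟨hz, hz'⟩
  by_cases h1 : z ∈ S
  · right; exact ⟨hz, fun h2 => hz' ⟨h1, h2⟩⟩
  · left; exact ⟨hz, h1⟩

lemma opn_univ : Opn c univ := fun y _ => by simpa using small_empty y.1

lemma opn_empty : Opn c ∅ := fun y hy => absurd hy (notMem_empty y)

/-- clopen sets -/
def Loc (c : Om → Pt → ℕ) (S : Set Pt) : Prop := Opn c S ∧ Opn c Sᶜ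

lemma Loc.compl {S : Set Pt} (h : Loc c S) : Loc c Sᶜ := ⟨h.2, by rw [compl_compl]; exact h.1⟩

lemma Loc.union {S S' : Set Pt} (h : Loc c S) (h' : Loc c S') : Loc c (S ∪ S') :=
  ⟨h.1.union h'.1, by rw [compl_union]; exact h.2.inter h'.2⟩

lemma Loc.inter {S S' : Set Pt} (h : Loc c S) (h' : Loc c S') : Loc c (S ∩ S') :=
  ⟨h.1.inter h'.1, by rw [compl_inter]; exact h.2.union h'.2⟩

lemma Loc.diff {S S' : Set Pt} (h : Loc c S) (h' : Loc c S') : Loc c (S \ S') :=
  h.inter h'.compl

lemma loc_empty : Loc c ∅ := ⟨opn_empty, by rw [compl_empty]; exact opn_univ⟩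

lemma Loc.biUnion {ι : Type} (E : Finset ι) (S : ι → Set Pt) (h : ∀ i ∈ E, Loc c (S i)) :
    Loc c (⋃ i ∈ E, S i) := by
  classical
  induction E using Finset.induction_on with
  | empty => simpa using loc_empty
  | insert a E ha ih =>
    rw [Finset.set_biUnion_insert]
    exact (h a (Finset.mem_insert_self _ _)).union
      (ih fun i hi => h i (Finset.mem_insert_of_mem hi))

lemma Sys.opn_cone (hc : Sys c) (x : Pt) : Opn c (cone c x) := by
  intro y hy
  rcases cone_cases hy with rfl | ⟨h1, h2⟩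
  · simpa using small_empty y.1
  · refine (hc y.1 x.1 h1).mono ?_
    rintro z ⟨hz, hzx⟩
    rcases cone_cases hz with rfl | ⟨h3, h4⟩
    · exact absurd hy hzx
    · refine ⟨h3, ?_⟩
      have h5 : rt c y.1 z = y := hz
      rw [h5, h2]
      intro h6
      exact hzx ((mem_cone_lt (h3.trans h1)).2 h6)

lemma Sys.loc_cone (hc : Sys c) (x : Pt) : Loc c (cone c x) := by
  refine ⟨hc.opn_cone x, ?_⟩
  intro y hy
  have hy' : y ∉ cone c x := hy
  rcases lt_trichotomy y.1 x.1 with h1 | h1 | h1
  · refine (hc y.1 x.1 h1).mono ?_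
    rintro z ⟨hz, hzx⟩
    have hzx' : z ∈ cone c x := by
      by_contra h; exact hzx h
    rcases cone_cases hz with rfl | ⟨h3, h4⟩
    · exact absurd hzx' hy'
    · refine ⟨h3, ?_⟩
      have h5 : rt c y.1 z = y := hz
      rw [h5, (mem_cone_lt (h3.trans h1)).1 hzx']
      intro h6
      exact hy' ((mem_cone_lt h1).2 h6.symm)
  · refine (small_empty y.1).mono ?_
    rintro z ⟨hz, hzx⟩
    have hzx' : z ∈ cone c x := by
      by_contra h; exact hzx h
    have h5 : rt c y.1 z = y := hz
    have h6 : rt c x.1 z = x := hzx'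
    rw [h1, h6] at h5
    exact absurd (h5 ▸ self_mem x) hy'
  · refine (small_cone h1).mono ?_
    rintro z ⟨hz, hzx⟩
    by_contra h
    exact hzx h

lemma Opn.preimage (hc : Sys c) {S : Set Pt} (hS : Opn c S) (l : Om) :
    Opn c (rt c l ⁻¹' S) := by
  classical
  intro y hy
  rcases lt_or_ge y.1 l with h1 | h1
  · refine (hc y.1 l h1).mono ?_
    rintro z ⟨hz, hzS⟩
    rcases cone_cases hz with rfl | ⟨h3, h4⟩
    · exact absurd hy hzS
    · refine ⟨h3, fun h5 => hzS ?_⟩
      have h6 : rt c y.1 z = y := hz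
      rw [h6] at h5
      show rt c l z ∈ S
      rw [rt_lt (h3.trans h1), h5, ← rt_lt h1]
      exact hy
  · have hyS : y ∈ S := by
      have : rt c l y ∈ S := hy
      rwa [rt_ge h1] at this
    obtain ⟨E, hE1, hE2⟩ := hS y hyS
    -- the small sets
    have hsm : Small c y.1 ((⋃ e ∈ E, cone c e) ∪ ((⋃ e ∈ E.filter (fun e => l < e.1),
        Df c l e.1) ∪ (if l < y.1 then Df c l y.1 else ∅))) := by
      refine (Small.biUnion E _ fun e he => small_cone (hE1 e he)).union
        ((Small.biUnion _ _ fun e he => ?_).union ?_)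
      · exact (hc l e.1 (Finset.mem_filter.1 he).2).level h1
      · split_ifs with h2
        · exact (hc l y.1 h2).level h1
        · exact small_empty _
    refine hsm.mono ?_
    rintro z ⟨hz, hzS⟩
    have hzS' : rt c l z ∉ S := hzS
    rcases lt_or_ge z.1 l with h2 | h2
    · rcases h1.lt_or_eq with h3 | h3
      · -- l < y.1
        by_cases h4 : z ∈ Df c l y.1
        · right; right; rw [if_pos h3]; exact h4
        · have h5 : c y.1 z = c y.1 (rt c l z) := by
            by_contra h6; exact h4 ⟨h2, h6⟩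
          have h7 : rt c l z ∈ cone c y := by
            have hlev : (rt c l z).1 < y.1 := by rw [rt_lt h2]; exact h3
            rw [mem_cone_lt hlev, ← h5]
            exact (mem_cone_lt (h2.trans h3)).1 hz
          obtain ⟨e, he, hze⟩ := hE2 _ ⟨h7, hzS'⟩
          have h8 : l ≤ e.1 := by
            have := cone_le hze
            rw [rt_lt h2] at this
            exact this
          rcases h8.lt_or_eq with h9 | h9
          · by_cases h10 : z ∈ Df c l e.1
            · right; left
              simp only [mem_iUnion]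
              exact ⟨e, Finset.mem_filter.2 ⟨he, h9⟩, h10⟩
            · left
              simp only [mem_iUnion]
              refine ⟨e, he, ?_⟩
              have h11 : c e.1 z = c e.1 (rt c l z) := by
                by_contra h6; exact h10 ⟨h2, h6⟩
              rw [mem_cone_lt (h2.trans h9), h11]
              refine (mem_cone_lt ?_).1 hze
              rw [rt_lt h2]; exact h9
          · left
            simp only [mem_iUnion]
            refine ⟨e, he, ?_⟩
            have h11 : (rt c l z) = e := by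
              refine (mem_cone_ge ?_).1 hze
              rw [rt_lt h2]; exact h9.ge
            rw [mem_cone, ← h9]
            exact h11
      · -- l = y.1
        exfalso
        apply hzS'
        have h4 : rt c y.1 z = y := hz
        rw [← h3] at h4
        rw [h4]; exact hyS
    · left
      rw [rt_ge h2] at hzS'
      obtain ⟨e, he, hze⟩ := hE2 z ⟨hz, hzS'⟩
      simp only [mem_iUnion]
      exact ⟨e, he, hze⟩

lemma Loc.preimage (hc : Sys c) {S : Set Pt} (hS : Loc c S) (l : Om) :
    Loc c (rt c l ⁻¹' S) := ⟨hS.1.preimage hc l, hS.2.preimage hc l⟩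

/-- induction on the level -/
lemma pt_induction {Q : Pt → Prop} (h : ∀ p : Pt, (∀ q : Pt, q.1 < p.1 → Q q) → Q p) (p : Pt) :
    Q p :=
  (InvImage.wf (Prod.fst : Pt → Om) (wellFounded_lt (α := Om))).induction p fun p ih =>
    h p fun q hq => ih q hq

/-- compactness of the cones -/
lemma small_of_closed_aux (hc : Sys c) {m : Om} (x : Pt) : ∀ S : Set Pt, Opn c Sᶜ → S ⊆ cone c x →
    (∀ z ∈ S, z.1 < m) → Small c m S := by
  refine pt_induction (Q := fun x => ∀ S : Set Pt, Opn c Sᶜ → S ⊆ cone c x →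
    (∀ z ∈ S, z.1 < m) → Small c m S) ?_ x
  intro x ih S hS hSx hm
  by_cases hx : x ∈ S
  · exact (small_cone (hm x hx)).mono hSx
  · obtain ⟨E, hE1, hE2⟩ := hS x hx
    have key : Small c m (⋃ e ∈ E, (S ∩ cone c e)) := by
      refine Small.biUnion E _ fun e he => ?_
      refine ih e (hE1 e he) _ ?_ inter_subset_right fun z hz => hm z hz.1
      rw [compl_inter]
      exact hS.union (hc.loc_cone e).2
    refine key.mono ?_
    intro z hz
    obtain ⟨e, he, hze⟩ := hE2 z ⟨hSx hz, fun h => h hz⟩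
    simp only [mem_iUnion]
    exact ⟨e, he, hz, hze⟩

lemma small_of_closed (hc : Sys c) {m l : Om} {S : Set Pt} (hS : Opn c Sᶜ) (h : Small c l S)
    (hm : ∀ z ∈ S, z.1 < m) : Small c m S := by
  obtain ⟨E, hE1, hE2⟩ := h
  have key : Small c m (⋃ e ∈ E, (S ∩ cone c e)) := by
    refine Small.biUnion E _ fun e he => ?_
    refine small_of_closed_aux hc e _ ?_ inter_subset_right fun z hz => hm z hz.1
    rw [compl_inter]
    exact hS.union (hc.loc_cone e).2
  refine key.mono ?_
  intro z hz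
  obtain ⟨e, he, hze⟩ := hE2 z hz
  simp only [mem_iUnion]
  exact ⟨e, he, hz, hze⟩

/-- the retraction is proper -/
lemma Small.preimage (hc : Sys c) {m l : Om} {S : Set Pt} (h : Small c l S) (hm : m ≤ l) :
    Small c l (rt c m ⁻¹' S) := by
  classical
  obtain ⟨E, hE1, hE2⟩ := h
  have key : Small c l ((⋃ e ∈ E, cone c e) ∪ (⋃ e ∈ E.filter (fun e => m < e.1),
        Df c m e.1)) := by
    refine (Small.biUnion E _ fun e he => small_cone (hE1 e he)).union
        (Small.biUnion _ _ fun e he => ?_)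
    exact (hc m e.1 (Finset.mem_filter.1 he).2).level hm
  refine key.mono ?_
  intro z hz
  obtain ⟨e, he, hze⟩ := hE2 _ hz
  rcases lt_or_ge z.1 m with h2 | h2
  · have h8 : m ≤ e.1 := by
      have := cone_le hze
      rw [rt_lt h2] at this
      exact this
    rcases h8.lt_or_eq with h9 | h9
    · by_cases h10 : z ∈ Df c m e.1
      · right
        simp only [mem_iUnion]
        exact ⟨e, Finset.mem_filter.2 ⟨he, h9⟩, h10⟩
      · left
        simp only [mem_iUnion]
        refine ⟨e, he, ?_⟩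
        have h11 : c e.1 z = c e.1 (rt c m z) := by
          by_contra h6; exact h10 ⟨h2, h6⟩
        rw [mem_cone_lt (h2.trans h9), h11]
        refine (mem_cone_lt ?_).1 hze
        rw [rt_lt h2]; exact h9
    · left
      simp only [mem_iUnion]
      refine ⟨e, he, ?_⟩
      have h11 : (rt c m z) = e := by
        refine (mem_cone_ge ?_).1 hze
        rw [rt_lt h2]; exact h9.ge
      rw [mem_cone, ← h9]
      exact h11
  · left
    rw [rt_ge h2] at hze
    simp only [mem_iUnion]
    exact ⟨e, he, hze⟩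

/-- a small set of points of the lower levels gets finitely many colours -/
lemma finite_colours (hc : Sys c) {m : Om} {S : Set Pt} (h : Small c m S) :
    (c m '' S).Finite := by
  have key : ∀ x : Pt, x.1 < m → (c m '' (cone c x)).Finite := by
    intro x
    refine pt_induction (Q := fun x => x.1 < m → (c m '' (cone c x)).Finite) ?_ x
    intro x ih hx
    obtain ⟨E, hE1, hE2⟩ := hc x.1 m hx
    have h1 : (⋃ e ∈ E, c m '' (cone c e)).Finite :=
      E.finite_toSet.biUnion fun e he => ih e (hE1 e he) ((hE1 e he).trans hx)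
    refine (h1.union (finite_singleton (c m x))).subset ?_
    rintro _ ⟨z, hz, rfl⟩
    rcases cone_cases hz with rfl | ⟨h3, h4⟩
    · right; rfl
    · by_cases h5 : z ∈ Df c x.1 m
      · left
        obtain ⟨e, he, hze⟩ := hE2 z h5
        simp only [mem_iUnion]
        exact ⟨e, he, z, hze, rfl⟩
      · right
        have h6 : c m z = c m (rt c x.1 z) := by
          by_contra h7; exact h5 ⟨h3, h7⟩
        have h7 : rt c x.1 z = x := hz
        rw [h7] at h6
        exact h6
  obtain ⟨E, hE1, hE2⟩ := h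
  have h1 : (⋃ e ∈ E, c m '' (cone c e)).Finite :=
    E.finite_toSet.biUnion fun e he => key e (hE1 e he)
  refine h1.subset ?_
  rintro _ ⟨z, hz, rfl⟩
  obtain ⟨e, he, hze⟩ := hE2 z hz
  simp only [mem_iUnion]
  exact ⟨e, he, z, hze, rfl⟩

lemma finite_rt_image (hc : Sys c) {m : Om} {S : Set Pt} (h : Small c m S) :
    (rt c m '' S).Finite := by
  refine ((finite_colours hc h).image (fun k => ((m, k) : Pt))).subset ?_
  rintro _ ⟨z, hz, rfl⟩
  refine ⟨c m z, ⟨z, hz, rfl⟩, ?_⟩
  rw [rt_lt (h.lt hz)]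

/-- the image of a small set under a retraction -/
lemma Small.image (hc : Sys c) {m l : Om} {S : Set Pt} (h : Small c l S) (hm : m < l) :
    Small c l (rt c m '' S) := by
  classical
  obtain ⟨E, hE1, hE2⟩ := h
  have key : Small c l ((⋃ e ∈ E, cone c e) ∪ ((⋃ e ∈ E.filter (fun e => m < e.1),
        rt c m '' Df c m e.1) ∪ (⋃ e ∈ E.filter (fun e => e.1 < m), rt c m '' cone c e))) := by
    refine (Small.biUnion E _ fun e he => small_cone (hE1 e he)).union
        ((Small.biUnion _ _ fun e he => ?_).union (Small.biUnion _ _ fun e he => ?_))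
    · have h1 := hc m e.1 (Finset.mem_filter.1 he).2
      refine small_finite _ (finite_rt_image hc h1) ?_
      rintro _ ⟨z, hz, rfl⟩
      exact rt_lev_lt hm ((h1.lt hz).trans hm)
    · have h1 : Small c m (cone c e) := small_cone (Finset.mem_filter.1 he).2
      refine small_finite _ (finite_rt_image hc h1) ?_
      rintro _ ⟨z, hz, rfl⟩
      exact rt_lev_lt hm ((h1.lt hz).trans hm)
  refine key.mono ?_
  rintro _ ⟨z, hz, rfl⟩
  obtain ⟨e, he, hze⟩ := hE2 _ hz
  rcases lt_or_ge z.1 m with h2 | h2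
  · rcases lt_trichotomy e.1 m with h3 | h3 | h3
    · right; right
      simp only [mem_iUnion]
      exact ⟨e, Finset.mem_filter.2 ⟨he, h3⟩, z, hze, rfl⟩
    · left
      simp only [mem_iUnion]
      refine ⟨e, he, ?_⟩
      have h4 : rt c e.1 z = e := hze
      rw [h3] at h4
      rw [h4]
      exact self_mem e
    · by_cases h10 : z ∈ Df c m e.1
      · right; left
        simp only [mem_iUnion]
        exact ⟨e, Finset.mem_filter.2 ⟨he, h3⟩, z, h10, rfl⟩
      · left
        simp only [mem_iUnion]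
        refine ⟨e, he, ?_⟩
        have h11 : c e.1 z = c e.1 (rt c m z) := by
          by_contra h6; exact h10 ⟨h2, h6⟩
        rw [mem_cone_lt (rt_lev_lt h3 (h2.trans h3)), ← h11]
        exact (mem_cone_lt (h2.trans h3)).1 hze
  · left
    rw [rt_ge h2]
    simp only [mem_iUnion]
    exact ⟨e, he, hze⟩

/-- saturated sets -/
def Sat (c : Om → Pt → ℕ) (m : Om) (S : Set Pt) : Prop := ∀ z, z ∈ S ↔ rt c m z ∈ S

lemma Sat.diff {m : Om} {S S' : Set Pt} (h : Sat c m S) (h' : Sat c m S') : Sat c m (S \ S') :=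
  fun z => by rw [mem_sdiff, mem_sdiff, ← h z, ← h' z]

/-- saturation lemma -/
lemma exists_sat (hc : Sys c) (M : Finset Om) (v : Om) (hv : v ∈ M) (hM : ∀ m ∈ M, m ≤ v) :
    ∃ G : Set Pt, G.Finite ∧ (∀ g ∈ G, g.1 = v) ∧
      ∀ N : Set Pt, (G ⊆ N ∨ Disjoint G N) → ∀ m ∈ M, Sat c m (rt c v ⁻¹' N) := by
  classical
  refine ⟨⋃ m ∈ M.filter (fun m => m < v), (rt c v '' Df c m v ∪ rt c v '' (rt c m '' Df c m v)),
    ?_, ?_, ?_⟩
  · refine (Finset.finite_toSet _).biUnion fun m hm => ?_
    have h1 := (Finset.mem_filter.1 hm).2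
    have h2 := hc m v h1
    refine (finite_rt_image hc (h2.level h1.le)).union ?_
    exact (finite_rt_image hc h2).image _
  · intro g hg
    simp only [mem_iUnion] at hg
    obtain ⟨m, hm, hg⟩ := hg
    have h1 := (Finset.mem_filter.1 hm).2
    have h2 := hc m v h1
    rcases hg with ⟨z, hz, rfl⟩ | ⟨_, ⟨z, hz, rfl⟩, rfl⟩
    · rw [rt_lt ((h2.lt hz).trans h1)]
    · rw [rt_lt (rt_lev_lt h1 ((h2.lt hz).trans h1))]
  · intro N hN m hm z
    show rt c v z ∈ N ↔ rt c v (rt c m z) ∈ N
    rcases (hM m hm).lt_or_eq with h1 | rfl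
    · rcases lt_or_ge z.1 m with h2 | h2
      · by_cases h3 : z ∈ Df c m v
        · have h4 : rt c v z ∈ ⋃ m ∈ M.filter (fun m => m < v),
              (rt c v '' Df c m v ∪ rt c v '' (rt c m '' Df c m v)) := by
            simp only [mem_iUnion]
            exact ⟨m, Finset.mem_filter.2 ⟨hm, h1⟩, Or.inl ⟨z, h3, rfl⟩⟩
          have h5 : rt c v (rt c m z) ∈ ⋃ m ∈ M.filter (fun m => m < v),
              (rt c v '' Df c m v ∪ rt c v '' (rt c m '' Df c m v)) := by
            simp only [mem_iUnion]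
            exact ⟨m, Finset.mem_filter.2 ⟨hm, h1⟩, Or.inr ⟨_, ⟨z, h3, rfl⟩, rfl⟩⟩
          rcases hN with hN | hN
          · exact ⟨fun _ => hN h5, fun _ => hN h4⟩
          · exact ⟨fun h => absurd h (disjoint_left.1 hN h4),
              fun h => absurd h (disjoint_left.1 hN h5)⟩
        · have h4 : c v z = c v (rt c m z) := by
            by_contra h6; exact h3 ⟨h2, h6⟩
          rw [rt_lt (h2.trans h1), rt_lt (rt_lev_lt h1 (h2.trans h1)), h4]
      · rw [rt_ge h2]
    · rw [rt_idem]

/-- distinct points are separated by clopen sets -/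
lemma exists_sep (hc : Sys c) {x y : Pt} (h : x ≠ y) : ∃ U, Loc c U ∧ x ∈ U ∧ y ∉ U := by
  rcases le_or_gt y.1 x.1 with h1 | h1
  · exact ⟨(cone c y)ᶜ, (hc.loc_cone y).compl, fun h2 => h ((mem_cone_ge h1).1 h2),
      fun h2 => h2 (self_mem y)⟩
  · exact ⟨cone c x, hc.loc_cone x, self_mem x, fun h2 => absurd (cone_le h2) (not_le.2 h1)⟩

lemma exists_sep_finite (hc : Sys c) {x : Pt} {G : Set Pt} (hG : G.Finite) (h : x ∉ G) :
    ∃ U, Loc c U ∧ x ∈ U ∧ Disjoint G U := by
  induction G, hG using Set.Finite.induction_on with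
  | empty => exact ⟨∅ᶜ, loc_empty.compl, by simp, by simp⟩
  | @insert a G _ _ ih =>
    obtain ⟨U, h1, h2, h3⟩ := ih fun h' => h (mem_insert_of_mem _ h')
    obtain ⟨V, h4, h5, h6⟩ := exists_sep hc (x := x) (y := a) fun h' => h (h' ▸ mem_insert _ _)
    refine ⟨U ∩ V, h1.inter h4, ⟨h2, h5⟩, ?_⟩
    rw [Set.disjoint_left]
    rintro z (rfl | hz) ⟨h7, h8⟩
    · exact h6 h8
    · exact Set.disjoint_left.1 h3 hz h7

end Pool.Agent.TH567.Dia
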