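import Mathlib
import Pool.Agent.TH567.Dia.Basic

/-!
# One stage of the construction
-/

set_option autoImplicit false

open Set

namespace Pool.Agent.TH567.Dia

open Pool.Agent.Helper292.ForceCH (Om exists_bound countable_Iio ub lt_ub ub_le)

variable {c : Om → Pt → ℕ}

/-- `A` has pairs outside all small sets, which are different after a retraction -/
def Big (c : Om → Pt → ℕ) (l : Om) (A : Set (Pt × Pt)) : Prop :=
  (∃ b, b < l) ∧ ∀ S, Small c l S → ∀ m < l, ∃ p ∈ A, p.1.1 < l ∧ p.2.1 < l ∧ p.1 ∉ S ∧ p.2 ∉ S ∧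
    rt c m p.1 ≠ rt c m p.2

/-- `A` has pairs of all pairs of colours outside all small sets -/
def Rich (c : Om → Pt → ℕ) (l : Om) (d : Pt → ℕ) (A : Set (Pt × Pt)) : Prop :=
  ∀ n m : ℕ, ∀ S, Small c l S → ∃ p ∈ A, p.1.1 < l ∧ p.2.1 < l ∧ p.1 ∉ S ∧ p.2 ∉ S ∧
    d p.1 = n ∧ d p.2 = m

/-- `d` is good for the retraction to the level `m` -/
def GoodCol (c : Om → Pt → ℕ) (l : Om) (d : Pt → ℕ) : Prop :=
  ∀ m < l, Small c m {z | z.1 < m ∧ d z ≠ d (rt c m z)}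

lemma exists_enum_levels {l : Om} (hl : ∃ b, b < l) :
    ∃ u : ℕ → Om, (∀ i, u i < l) ∧ ∀ m < l, ∃ i, u i = m := by
  have h1 : Countable {b : Om // b < l} := countable_Iio l
  have h2 : Nonempty {b : Om // b < l} := ⟨⟨hl.choose, hl.choose_spec⟩⟩
  obtain ⟨f, hf⟩ := exists_surjective_nat {b : Om // b < l}
  refine ⟨fun i => (f i).1, fun i => (f i).2, fun m hm => ?_⟩
  obtain ⟨i, hi⟩ := hf ⟨m, hm⟩
  exact ⟨i, congrArg Subtype.val hi⟩

lemma countable_below (l : Om) : ({y : Pt | y.1 < l}).Countable := by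
  have h1 : {y : Pt | y.1 < l} = {b : Om | b < l} ×ˢ (univ : Set ℕ) := by
    ext y; simp
  rw [h1]
  exact (Set.countable_coe_iff.1 (countable_Iio l)).prod countable_univ

lemma exists_enum_points {l : Om} (hl : ∃ b, b < l) :
    ∃ P : ℕ → Pt, (∀ i, (P i).1 < l) ∧ ∀ y : Pt, y.1 < l → ∃ i, P i = y := by
  have hne : ({y : Pt | y.1 < l}).Nonempty := ⟨(hl.choose, 0), hl.choose_spec⟩
  obtain ⟨f, hf⟩ := (countable_below l).exists_eq_range hne
  refine ⟨f, fun i => ?_, fun y hy => ?_⟩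
  · have : f i ∈ {y : Pt | y.1 < l} := by rw [hf]; exact mem_range_self i
    exact this
  · have : y ∈ range f := by rw [← hf]; exact hy
    exact this

theorem stage (hc : Sys c) {l : Om} (hl : ∃ b, b < l) (A : ℕ → Set (Pt × Pt))
    (hA : ∀ j, Big c l (A j)) :
    ∃ d : Pt → ℕ, GoodCol c l d ∧ ∀ j, Rich c l d (A j) := by
  classical
  obtain ⟨u, hu1, hu2⟩ := exists_enum_levels hl
  obtain ⟨P, hP1, hP2⟩ := exists_enum_points hl
  -- the finite sets of levels and their maxima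
  let M : ℕ → Finset Om := fun k => (Finset.range (k + 1)).image u
  have hMu : ∀ k, ∀ i ≤ k, u i ∈ M k := fun k i hi =>
    Finset.mem_image_of_mem u (Finset.mem_range.2 (Nat.lt_succ_of_le hi))
  have hMne : ∀ k, (M k).Nonempty := fun k => ⟨u 0, hMu k 0 (Nat.zero_le k)⟩
  let v : ℕ → Om := fun k => (M k).max' (hMne k)
  have hv1 : ∀ k, v k ∈ M k := fun k => Finset.max'_mem _ _
  have hv2 : ∀ k, ∀ m ∈ M k, m ≤ v k := fun k m hm => Finset.le_max' _ _ hm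
  have hvl : ∀ k, v k < l := by
    intro k
    obtain ⟨i, _, hi⟩ := Finset.mem_image.1 (hv1 k)
    rw [← hi]; exact hu1 i
  have hG := fun k => exists_sat hc (M k) (v k) (hv1 k) (hv2 k)
  choose G hGf hGv hGs using hG
  -- the states
  let St : ℕ → Set Pt → Prop := fun k Q => Small c l Q ∧ Loc c Q ∧ (∀ i ≤ k, Sat c (u i) Q) ∧
    rt c (v k) ⁻¹' (G k) ⊆ Q
  have cover : ∀ k L, Small c l L → ∃ Q, L ⊆ Q ∧ St k Q := by
    intro k L hL
    have h1 : Small c l ((rt c (v k) '' L) ∪ G k) := (hL.image hc (hvl k)).union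
      (small_finite _ (hGf k) fun z hz => by rw [hGv k z hz]; exact hvl k)
    obtain ⟨E, hE1, hE2⟩ := h1
    let N : Set Pt := ⋃ e ∈ E, cone c e
    have hN1 : Loc c N := Loc.biUnion E _ fun e _ => hc.loc_cone e
    have hN2 : Small c l N := Small.biUnion E _ fun e he => small_cone (hE1 e he)
    have hN3 : ∀ z ∈ (rt c (v k) '' L) ∪ G k, z ∈ N := by
      intro z hz
      obtain ⟨e, he, hze⟩ := hE2 z hz
      simp only [N, mem_iUnion]
      exact ⟨e, he, hze⟩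
    have hGN : G k ⊆ N := fun z hz => hN3 z (Or.inr hz)
    refine ⟨rt c (v k) ⁻¹' N, fun z hz => hN3 _ (Or.inl ⟨z, hz, rfl⟩),
      hN2.preimage hc (hvl k).le, hN1.preimage hc _, fun i hi => ?_, preimage_mono hGN⟩
    exact hGs k N (Or.inl hGN) (u i) (hMu k i hi)
  have split : ∀ k (a b : Pt), rt c (v k) a ∉ G k → rt c (v k) a ≠ rt c (v k) b →
      ∃ Y, Loc c Y ∧ (∀ i ≤ k, Sat c (u i) Y) ∧ a ∈ Y ∧ b ∉ Y := by
    intro k a b ha hab
    obtain ⟨U, hU1, hU2, hU3⟩ := exists_sep_finite hc (x := rt c (v k) a) (hGf k) ha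
    obtain ⟨V, hV1, hV2, hV3⟩ := exists_sep hc hab
    have hd : Disjoint (G k) (U ∩ V) := hU3.mono_right inter_subset_left
    refine ⟨rt c (v k) ⁻¹' (U ∩ V), (hU1.inter hV1).preimage hc _, fun i hi =>
      hGs k _ (Or.inr hd) (u i) (hMu k i hi), ⟨hU2, hV2⟩, fun h => hV3 h.2⟩
  -- decoding of the tasks
  let tj : ℕ → ℕ := fun k => (Nat.unpair (Nat.unpair k).1).1
  let tn : ℕ → ℕ := fun k => (Nat.unpair (Nat.unpair (Nat.unpair k).1).2).1
  let tm : ℕ → ℕ := fun k => (Nat.unpair (Nat.unpair (Nat.unpair k).1).2).2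
  have step : ∀ k Q, St k Q → ∃ (Q' Y : Set Pt) (p : Pt × Pt), St (k + 1) Q' ∧ Q ⊆ Q' ∧
      P k ∈ Q' ∧ cone c (P k) ⊆ Q' ∧ Loc c Y ∧ (∀ i ≤ k, Sat c (u i) Y) ∧ p ∈ A (tj k) ∧
      p.1.1 < l ∧ p.2.1 < l ∧ p.1 ∉ Q ∧ p.2 ∉ Q ∧ p.1 ∈ Q' ∧ p.2 ∈ Q' ∧ p.1 ∈ Y ∧ p.2 ∉ Y := by
    rintro k Q ⟨h1, h2, h3, h4⟩
    obtain ⟨p, hpA, hp1, hp2, hp3, hp4, hp5⟩ := (hA (tj k)).2 Q h1 (v k) (hvl k)
    obtain ⟨Y, hY1, hY2, hY3, hY4⟩ := split k p.1 p.2 (fun h => hp3 (h4 h)) hp5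
    obtain ⟨Q', hQ1, hQ2⟩ := cover (k + 1) (Q ∪ (cone c (P k) ∪ (cone c p.1 ∪ cone c p.2)))
      (h1.union ((small_cone (hP1 k)).union ((small_cone hp1).union (small_cone hp2))))
    refine ⟨Q', Y, p, hQ2, fun z hz => hQ1 (Or.inl hz), hQ1 (Or.inr (Or.inl (self_mem _))),
      fun z hz => hQ1 (Or.inr (Or.inl hz)), hY1, hY2, hpA, hp1, hp2, hp3, hp4,
      hQ1 (Or.inr (Or.inr (Or.inl (self_mem _)))), hQ1 (Or.inr (Or.inr (Or.inr (self_mem _)))),
      hY3, hY4⟩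
  choose nQ nY np hstep using step
  obtain ⟨Q0, _, hQ0⟩ := cover 0 ∅ (small_empty l)
  let Qs : (k : ℕ) → {Q : Set Pt // St k Q} := fun k =>
    Nat.rec ⟨Q0, hQ0⟩ (fun k Q => ⟨nQ k Q.1 Q.2, (hstep k Q.1 Q.2).1⟩) k
  have hQs : ∀ k, (Qs (k + 1)).1 = nQ k (Qs k).1 (Qs k).2 := fun k => rfl
  let Q : ℕ → Set Pt := fun k => (Qs k).1
  let Y : ℕ → Set Pt := fun k => nY k (Qs k).1 (Qs k).2
  let p : ℕ → Pt × Pt := fun k => np k (Qs k).1 (Qs k).2
  have hQst : ∀ k, St k (Q k) := fun k => (Qs k).2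
  have hall : ∀ k, St (k + 1) (Q (k + 1)) ∧ Q k ⊆ Q (k + 1) ∧
      P k ∈ Q (k + 1) ∧ cone c (P k) ⊆ Q (k + 1) ∧ Loc c (Y k) ∧ (∀ i ≤ k, Sat c (u i) (Y k)) ∧
      p k ∈ A (tj k) ∧ (p k).1.1 < l ∧ (p k).2.1 < l ∧ (p k).1 ∉ Q k ∧ (p k).2 ∉ Q k ∧
      (p k).1 ∈ Q (k + 1) ∧ (p k).2 ∈ Q (k + 1) ∧ (p k).1 ∈ Y k ∧ (p k).2 ∉ Y k :=
    fun k => hstep k (Qs k).1 (Qs k).2
  have hmono : Monotone Q := monotone_nat_of_le_succ fun k => (hall k).2.1
  -- the colouring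
  let col : ℕ → Pt → ℕ := fun k z => if z ∈ Y k then tn k else tm k
  let d : Pt → ℕ := fun z => if h : ∃ k, z ∈ Q k then
    (if Nat.find h = 0 then 0 else col (Nat.find h - 1) z) else 0
  have hd0 : ∀ z, z ∈ Q 0 → d z = 0 := by
    intro z hz
    have h : ∃ k, z ∈ Q k := ⟨0, hz⟩
    have h0 : Nat.find h = 0 := by
      rw [Nat.find_eq_zero]; exact hz
    simp only [d, dif_pos h, h0, if_true]
  have hdk : ∀ k z, z ∈ Q (k + 1) → z ∉ Q k → d z = col k z := by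
    intro k z hz hzk
    have h : ∃ k, z ∈ Q k := ⟨k + 1, hz⟩
    have h0 : Nat.find h = k + 1 := by
      rw [Nat.find_eq_iff]
      refine ⟨hz, fun j hj hzj => hzk (hmono (Nat.lt_succ_iff.1 hj) hzj)⟩
    simp only [d, dif_pos h, h0, Nat.succ_ne_zero, if_false, Nat.add_sub_cancel]
  have hcov : ∀ z : Pt, z.1 < l → z ∈ Q 0 ∨ ∃ k, z ∈ Q (k + 1) ∧ z ∉ Q k := by
    intro z hz
    obtain ⟨i, hi⟩ := hP2 z hz
    have h : ∃ k, z ∈ Q k := ⟨i + 1, hi ▸ (hall i).2.2.1⟩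
    rcases hk : Nat.find h with _ | k
    · left
      rw [Nat.find_eq_zero] at hk
      exact hk
    · right
      rw [Nat.find_eq_iff] at hk
      exact ⟨k, hk.1, hk.2 k (Nat.lt_succ_self k)⟩
  have hS : ∀ j, Opn c {w | w.1 < l ∧ d w = j} := by
    rintro j y ⟨hy, hyj⟩
    have key : ∃ U, Loc c U ∧ y ∈ U ∧ U ⊆ {w | w.1 < l ∧ d w = j} := by
      rcases hcov y hy with h | ⟨k, h1, h2⟩
      · refine ⟨Q 0, (hQst 0).2.1, h, fun w hw => ⟨(hQst 0).1.lt hw, ?_⟩⟩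
        rw [hd0 w hw, ← hyj, hd0 y h]
      · have hdy := hdk k y h1 h2
        by_cases h3 : y ∈ Y k
        · refine ⟨(Q (k + 1) \ Q k) ∩ Y k, ((hQst (k + 1)).2.1.diff (hQst k).2.1).inter
            (hall k).2.2.2.2.1, ⟨⟨h1, h2⟩, h3⟩, fun w hw => ⟨(hQst (k + 1)).1.lt hw.1.1, ?_⟩⟩
          rw [hdk k w hw.1.1 hw.1.2, ← hyj, hdy]
          simp only [col, if_pos hw.2, if_pos h3]
        · refine ⟨(Q (k + 1) \ Q k) \ Y k, ((hQst (k + 1)).2.1.diff (hQst k).2.1).diff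
            (hall k).2.2.2.2.1, ⟨⟨h1, h2⟩, h3⟩, fun w hw => ⟨(hQst (k + 1)).1.lt hw.1.1, ?_⟩⟩
          rw [hdk k w hw.1.1 hw.1.2, ← hyj, hdy]
          simp only [col, if_neg hw.2, if_neg h3]
    obtain ⟨U, hU1, hU2, hU3⟩ := key
    exact (hU1.1 y hU2).mono fun z hz => ⟨hz.1, fun h => hz.2 (hU3 h)⟩
  refine ⟨d, ?_, ?_⟩
  · intro m hm
    obtain ⟨i, rfl⟩ := hu2 m hm
    have hsub : {z : Pt | z.1 < u i ∧ d z ≠ d (rt c (u i) z)} ⊆ Q i := by
      rintro z ⟨hz1, hz2⟩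
      by_contra hz3
      apply hz2
      rcases hcov z (hz1.trans hm) with h | ⟨k, h1, h2⟩
      · exact absurd (hmono (Nat.zero_le i) h) hz3
      · have hik : i ≤ k := by
          by_contra h3
          exact hz3 (hmono (Nat.succ_le_of_lt (not_le.1 h3)) h1)
        have h4 : rt c (u i) z ∈ Q (k + 1) :=
          ((hQst (k + 1)).2.2.1 i (hik.trans (Nat.le_succ k)) z).1 h1
        have h5 : rt c (u i) z ∉ Q k := fun h => h2 (((hQst k).2.2.1 i hik z).2 h)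
        rw [hdk k z h1 h2, hdk k _ h4 h5]
        have h6 : z ∈ Y k ↔ rt c (u i) z ∈ Y k := (hall k).2.2.2.2.2.1 i hik z
        simp only [col, h6]
    refine small_of_closed hc (l := l) ?_ ((hQst i).1.mono hsub) fun z hz => hz.1
    intro y hy
    rcases lt_or_ge y.1 l with h1 | h1
    · have hj : d (rt c (u i) y) = d y := by
        rcases lt_or_ge y.1 (u i) with h2 | h2
        · by_contra h3
          exact hy ⟨h2, fun h => h3 h.symm⟩
        · rw [rt_ge h2]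
      have h2 := (hS (d y)).inter ((hS (d y)).preimage hc (u i)) y
        ⟨⟨h1, rfl⟩, ⟨rt_lev_lt hm h1, hj⟩⟩
      refine h2.mono ?_
      rintro z ⟨hz1, hz2⟩
      refine ⟨hz1, ?_⟩
      rintro ⟨⟨_, h3⟩, ⟨_, h4⟩⟩
      apply hz2
      rintro ⟨_, h5⟩
      exact h5 (h3.trans h4.symm)
    · refine (((hQst i).1.mono hsub).level h1).mono ?_
      rintro z ⟨_, hz⟩
      by_contra h
      exact hz h
  · intro j n m S hSm
    obtain ⟨E, hE1, hE2⟩ := hSm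
    obtain ⟨k0, hk0⟩ : ∃ k0, S ⊆ Q k0 := by
      have h1 : ∀ E : Finset Pt, (∀ x ∈ E, x.1 < l) → ∃ k0, ∀ x ∈ E, cone c x ⊆ Q k0 := by
        intro E
        induction E using Finset.induction_on with
        | empty => exact fun _ => ⟨0, by simp⟩
        | insert a E ha ih =>
          intro h
          obtain ⟨k1, hk1⟩ := ih fun x hx => h x (Finset.mem_insert_of_mem hx)
          obtain ⟨i, hi⟩ := hP2 a (h a (Finset.mem_insert_self _ _))
          refine ⟨max k1 (i + 1), fun x hx => ?_⟩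
          rcases Finset.mem_insert.1 hx with rfl | hx
          · rw [← hi]
            exact ((hall i).2.2.2.1).trans (hmono (le_max_right _ _))
          · exact (hk1 x hx).trans (hmono (le_max_left _ _))
      obtain ⟨k0, hk0⟩ := h1 E hE1
      refine ⟨k0, fun z hz => ?_⟩
      obtain ⟨x, hx, hzx⟩ := hE2 z hz
      exact hk0 x hx hzx
    let k := Nat.pair (Nat.pair j (Nat.pair n m)) k0
    have hk : k0 ≤ k := Nat.right_le_pair _ _
    have htj : tj k = j := by simp [tj, k]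
    have htn : tn k = n := by simp [tn, k]
    have htm : tm k = m := by simp [tm, k]
    obtain ⟨_, _, _, _, _, _, h7, h8, h9, h10, h11, h12, h13, h14, h15⟩ := hall k
    rw [htj] at h7
    refine ⟨p k, h7, h8, h9, fun h => h10 (hmono hk (hk0 h)), fun h => h11 (hmono hk (hk0 h)),
      ?_, ?_⟩
    · rw [hdk k _ h12 h10]
      simp only [col, if_pos h14, htn]
    · rw [hdk k _ h13 h11]
      simp only [col, if_neg h15, htm]

end Pool.Agent.TH567.Dia
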