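import Mathlib
import Pool.Agent.TH567.Dia.Stage

/-!
# The recursion
-/

set_option autoImplicit false

open Set

namespace Pool.Agent.TH567.Dia

open Pool.Agent.Helper292.ForceCH (Om exists_bound countable_Iio ub lt_ub ub_le)

/-! ### Agreement of systems -/

/-- the systems agree below `L` -/
def Agr (c c' : Om → Pt → ℕ) (L : Om) : Prop := ∀ m < L, ∀ y, c m y = c' m y

variable {c c' : Om → Pt → ℕ} {L : Om}

lemma Agr.symm (h : Agr c c' L) : Agr c' c L := fun m hm y => (h m hm y).symm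

lemma Agr.rt_eq (h : Agr c c' L) {m : Om} (hm : m < L) (y : Pt) : rt c m y = rt c' m y := by
  rcases lt_or_ge y.1 m with h1 | h1
  · rw [rt_lt h1, rt_lt h1, h m hm y]
  · rw [rt_ge h1, rt_ge h1]

lemma Agr.cone_eq (h : Agr c c' L) {x : Pt} (hx : x.1 < L) : cone c x = cone c' x := by
  ext y
  rw [mem_cone, mem_cone, h.rt_eq hx y]

lemma Agr.small (h : Agr c c' L) {l : Om} (hl : l ≤ L) {S : Set Pt} (hS : Small c l S) :
    Small c' l S := by
  obtain ⟨E, h1, h2⟩ := hS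
  refine ⟨E, h1, fun z hz => ?_⟩
  obtain ⟨x, hx, hzx⟩ := h2 z hz
  refine ⟨x, hx, ?_⟩
  rw [← h.cone_eq ((h1 x hx).trans_le hl)]
  exact hzx

lemma Agr.goodCol (h : Agr c c' L) {l : Om} (hl : l ≤ L) {d : Pt → ℕ} (hd : GoodCol c l d) :
    GoodCol c' l d := by
  intro m hm
  have h1 := h.small (hm.le.trans hl) (hd m hm)
  refine h1.mono ?_
  rintro z ⟨hz1, hz2⟩
  refine ⟨hz1, ?_⟩
  rw [h.rt_eq (hm.trans_le hl)]
  exact hz2

lemma Agr.big (h : Agr c c' L) {l : Om} (hl : l ≤ L) {A : Set (Pt × Pt)} (hA : Big c l A) :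
    Big c' l A := by
  refine ⟨hA.1, fun S hS m hm => ?_⟩
  obtain ⟨p, h1, h2, h3, h4, h5, h6⟩ := hA.2 S (h.symm.small hl hS) m hm
  refine ⟨p, h1, h2, h3, h4, h5, ?_⟩
  rw [← h.rt_eq (hm.trans_le hl), ← h.rt_eq (hm.trans_le hl)]
  exact h6

lemma Agr.rich (h : Agr c c' L) {l : Om} (hl : l ≤ L) {d : Pt → ℕ} {A : Set (Pt × Pt)}
    (hA : Rich c l d A) : Rich c' l d A :=
  fun n m S hS => hA n m S (h.symm.small hl hS)

/-- truncation -/
noncomputable def tr (c : Om → Pt → ℕ) (L : Om) : Om → Pt → ℕ :=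
  open Classical in fun m y => if m < L then c m y else 0

lemma agr_tr (c : Om → Pt → ℕ) (L : Om) : Agr (tr c L) c L := by
  intro m hm y
  unfold tr; rw [if_pos hm]

lemma sys_tr (h : ∀ l < L, GoodCol c l (c l)) : Sys (tr c L) := by
  intro m l hml
  rcases lt_or_ge l L with hl | hl
  · have h1 : Small c m {z | z.1 < m ∧ c l z ≠ c l (rt c m z)} := h l hl m hml
    have h2 := (agr_tr c L).symm.small (hml.trans hl).le h1
    refine h2.mono ?_
    rintro z ⟨hz1, hz2⟩
    refine ⟨hz1, ?_⟩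
    rwa [agr_tr c L l hl, agr_tr c L l hl, (agr_tr c L).rt_eq (hml.trans hl)] at hz2
  · refine (small_empty m).mono ?_
    rintro z ⟨hz1, hz2⟩
    exfalso
    apply hz2
    unfold tr
    simp only [if_neg (not_lt.2 hl)]

/-! ### Richness persists -/

lemma exists_fresh (E : Finset Pt) (l : Om) : ∃ n m : ℕ, n ≠ m ∧ (l, n) ∉ E ∧ (l, m) ∉ E := by
  classical
  have h1 : ∀ F : Finset Pt, ∃ n : ℕ, (l, n) ∉ F := by
    intro F
    obtain ⟨n, hn⟩ := Infinite.exists_notMem_finset (F.image Prod.snd)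
    exact ⟨n, fun h => hn (Finset.mem_image_of_mem Prod.snd h)⟩
  obtain ⟨n, hn⟩ := h1 E
  obtain ⟨m, hm⟩ := h1 (insert (l, n) E)
  refine ⟨n, m, ?_, hn, fun h => hm (Finset.mem_insert_of_mem h)⟩
  rintro rfl
  exact hm (Finset.mem_insert_self _ _)

lemma persist (hc : Sys c) {k : Om} {A : Set (Pt × Pt)} (hA : Rich c k (c k) A)
    (E : Finset Pt) (hE : ∀ x ∈ E, x.1 ≤ k) {m : Om} (hm : m ≤ k) :
    ∃ p ∈ A, p.1.1 < k ∧ p.2.1 < k ∧ (∀ x ∈ E, p.1 ∉ cone c x) ∧ (∀ x ∈ E, p.2 ∉ cone c x) ∧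
      rt c m p.1 ≠ rt c m p.2 := by
  classical
  obtain ⟨n, n', hnn, hn, hn'⟩ := exists_fresh E k
  have hS : Small c k ((⋃ e ∈ E.filter (fun e => e.1 < k), cone c e) ∪
      (if m < k then Df c m k else ∅)) := by
    refine (Small.biUnion _ _ fun e he => small_cone (Finset.mem_filter.1 he).2).union ?_
    split_ifs with h
    · exact (hc m k h).level h.le
    · exact small_empty _
  obtain ⟨p, hpA, h1, h2, h3, h4, h5, h6⟩ := hA n n' _ hS
  have key : ∀ (y : Pt) (i : ℕ), y.1 < k → y ∉ ((⋃ e ∈ E.filter (fun e => e.1 < k), cone c e) ∪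
      (if m < k then Df c m k else ∅)) → c k y = i → (k, i) ∉ E → ∀ x ∈ E, y ∉ cone c x := by
    intro y i hy hyS hyi hi x hx hyx
    rcases (hE x hx).lt_or_eq with h7 | h7
    · apply hyS
      left
      simp only [mem_iUnion]
      exact ⟨x, Finset.mem_filter.2 ⟨hx, h7⟩, hyx⟩
    · have h8 := (mem_cone_lt (by rw [h7]; exact hy)).1 hyx
      rw [h7, hyi] at h8
      apply hi
      have : ((k, i) : Pt) = x := Prod.ext h7.symm h8
      rw [this]; exact hx
  refine ⟨p, hpA, h1, h2, key _ _ h1 h3 h5 hn, key _ _ h2 h4 h6 hn', ?_⟩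
  rcases hm.lt_or_eq with h7 | rfl
  · have key2 : ∀ (y : Pt), y.1 < k → y ∉ ((⋃ e ∈ E.filter (fun e => e.1 < k), cone c e) ∪
      (if m < k then Df c m k else ∅)) → c k (rt c m y) = c k y := by
      intro y hy hyS
      rcases lt_or_ge y.1 m with h8 | h8
      · by_contra h9
        apply hyS
        right
        rw [if_pos h7]
        exact ⟨h8, fun h => h9 h.symm⟩
      · rw [rt_ge h8]
    intro h8
    have h9 := key2 _ h1 h3
    have h10 := key2 _ h2 h4
    rw [h8, h10, h6, h5] at h9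
    exact hnn h9.symm
  · rw [rt_lt h1, rt_lt h2, h5, h6]
    intro h8
    exact hnn (congrArg Prod.snd h8)

lemma exists_level_bound {l : Om} (h : ∃ b, b < l) (E : Finset Pt) (hE : ∀ x ∈ E, x.1 < l) :
    ∃ k < l, ∀ x ∈ E, x.1 ≤ k := by
  classical
  induction E using Finset.induction_on with
  | empty =>
    obtain ⟨b, hb⟩ := h
    exact ⟨b, hb, by simp⟩
  | insert a F ha ih =>
    obtain ⟨k, h1, h2⟩ := ih fun x hx => hE x (Finset.mem_insert_of_mem hx)
    refine ⟨max a.1 k, max_lt (hE a (Finset.mem_insert_self _ _)) h1, ?_⟩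
    intro x hx
    rcases Finset.mem_insert.1 hx with rfl | hx
    · exact le_max_left _ _
    · exact (h2 x hx).trans (le_max_right _ _)

/-- richness at all levels in `[g, l)` gives bigness at `l` -/
lemma big_of_rich (hc : Sys c) {g l : Om} (hgl : g < l) {A : Set (Pt × Pt)}
    (hA : ∀ k, g ≤ k → k < l → Rich c k (c k) A) : Big c l A := by
  refine ⟨⟨g, hgl⟩, fun S hS m hm => ?_⟩
  obtain ⟨E, hE1, hE2⟩ := hS
  obtain ⟨k0, hk0, hE3⟩ := exists_level_bound ⟨g, hgl⟩ E hE1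
  obtain ⟨p, h1, h2, h3, h4, h5, h6⟩ := persist hc
    (hA (max g (max m k0)) (le_max_left _ _) (max_lt hgl (max_lt hm hk0))) E
    (fun x hx => (hE3 x hx).trans ((le_max_right _ _).trans (le_max_right _ _)))
    (m := m) ((le_max_left _ _).trans (le_max_right _ _))
  have hlt : max g (max m k0) < l := max_lt hgl (max_lt hm hk0)
  refine ⟨p, h1, h2.trans hlt, h3.trans hlt, fun h => ?_, fun h => ?_, h6⟩
  · obtain ⟨x, hx, hpx⟩ := hE2 _ h
    exact h4 x hx hpx
  · obtain ⟨x, hx, hpx⟩ := hE2 _ h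
    exact h5 x hx hpx

/-! ### The recursion -/

/-- the least level -/
noncomputable def z0 : Om := WellFounded.min (wellFounded_lt (α := Om)) univ ⟨_, mem_univ (Classical.arbitrary Om)⟩

lemma z0_le (l : Om) : z0 ≤ l :=
  not_lt.1 (WellFounded.not_lt_min (wellFounded_lt (α := Om)) (s := univ) (mem_univ l))

/-- pairs of different points of the least level -/
def A00 : Set (Pt × Pt) := {p | p.1.1 = z0 ∧ p.2.1 = z0 ∧ p.1 ≠ p.2}

/-- the tasks at the level `l` -/
def Tasks (G : Om → Set (Pt × Pt)) (c : Om → Pt → ℕ) (l : Om) : Set (Set (Pt × Pt)) :=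
  {A | Big c l A ∧ (A = A00 ∨ ∃ g ≤ l, A = G g)}

/-- the requirement at the level `l` -/
def GoodStep (G : Om → Set (Pt × Pt)) (c : Om → Pt → ℕ) (l : Om) (d : Pt → ℕ) : Prop :=
  GoodCol c l d ∧ ∀ A ∈ Tasks G c l, Rich c l d A

lemma Agr.goodStep (h : Agr c c' L) {G : Om → Set (Pt × Pt)} {d : Pt → ℕ}
    (hd : GoodStep G c L d) : GoodStep G c' L d :=
  ⟨h.goodCol le_rfl hd.1, fun A hA => h.rich le_rfl (hd.2 A ⟨h.symm.big le_rfl hA.1, hA.2⟩)⟩

/-- one step -/
noncomputable def stepC (G : Om → Set (Pt × Pt)) (c : Om → Pt → ℕ) (l : Om) : Pt → ℕ :=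
  open Classical in if h : ∃ d, GoodStep G c l d then h.choose else fun _ => 0

/-- the system -/
noncomputable def cc (G : Om → Set (Pt × Pt)) : Om → Pt → ℕ :=
  (wellFounded_lt (α := Om)).fix fun l prev =>
    stepC G (open Classical in fun m y => if h : m < l then prev m h y else 0) l

lemma cc_eq (G : Om → Set (Pt × Pt)) (l : Om) : cc G l = stepC G (tr (cc G) l) l := by
  unfold cc
  rw [WellFounded.fix_eq]
  congr 1

lemma countable_tasks (G : Om → Set (Pt × Pt)) (c : Om → Pt → ℕ) (l : Om) :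
    (Tasks G c l).Countable := by
  have h1 : ({g : Om | g ≤ l}).Countable := by
    have : {g : Om | g ≤ l} = insert l {g : Om | g < l} := by
      ext b; simp [le_iff_eq_or_lt]
    rw [this]
    exact (Set.countable_coe_iff.1 (countable_Iio l)).insert _
  refine ((h1.image G).insert A00).mono ?_
  rintro A ⟨_, rfl | ⟨g, hg, rfl⟩⟩
  · exact mem_insert _ _
  · exact mem_insert_of_mem _ ⟨g, hg, rfl⟩

lemma exists_goodStep (G : Om → Set (Pt × Pt)) (hc : Sys c) {l : Om}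
    (h0 : (∃ b, b < l) → Big c l A00) : ∃ d, GoodStep G c l d := by
  by_cases hl : ∃ b, b < l
  · have hne : (Tasks G c l).Nonempty := ⟨A00, h0 hl, Or.inl rfl⟩
    obtain ⟨A, hA⟩ := (countable_tasks G c l).exists_eq_range hne
    have h1 : ∀ j, Big c l (A j) := by
      intro j
      have : A j ∈ Tasks G c l := by rw [hA]; exact mem_range_self j
      exact this.1
    obtain ⟨d, hd1, hd2⟩ := stage hc hl A h1
    refine ⟨d, hd1, ?_⟩
    intro B hB
    have : B ∈ range A := by rw [← hA]; exact hB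
    obtain ⟨j, rfl⟩ := this
    exact hd2 j
  · refine ⟨fun _ => 0, fun m hm => absurd ⟨m, hm⟩ hl, ?_⟩
    rintro A ⟨⟨h1, _⟩, _⟩
    exact absurd h1 hl

lemma goodStep_cc (G : Om → Set (Pt × Pt)) (l : Om) : GoodStep G (cc G) l (cc G l) ∧
    ((∃ b, b < l) → Big (cc G) l A00) := by
  induction l using (wellFounded_lt (α := Om)).induction with
  | _ l ih =>
  have hsys : Sys (tr (cc G) l) := sys_tr fun k hk => (ih k hk).1.1
  have hag := agr_tr (cc G) l
  have hbig : (∃ b, b < l) → Big (tr (cc G) l) l A00 := by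
    rintro ⟨b, hb⟩
    by_cases h1 : ∃ g, g < l ∧ z0 < g
    · obtain ⟨g, hg1, hg2⟩ := h1
      refine big_of_rich hsys hg1 fun k hk1 hk2 => ?_
      have h2 := (ih k hk2).2 ⟨z0, hg2.trans_le hk1⟩
      have h3 := (ih k hk2).1.2 A00 ⟨h2, Or.inl rfl⟩
      have h4 : tr (cc G) l k = cc G k := by
        funext y; exact hag k hk2 y
      rw [h4]
      exact hag.symm.rich hk2.le h3
    · push Not at h1
      have h2 : ∀ g, g < l → g = z0 := fun g hg => le_antisymm (h1 g hg) (z0_le g)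
      refine ⟨⟨b, hb⟩, fun S hS m hm => ?_⟩
      obtain ⟨E, hE1, hE2⟩ := hS
      obtain ⟨n, n', hnn, hn, hn'⟩ := exists_fresh E z0
      have hzl : z0 < l := (z0_le b).trans_lt hb
      have key : ∀ i : ℕ, (z0, i) ∉ E → (z0, i) ∉ S := by
        intro i hi hS'
        obtain ⟨x, hx, hzx⟩ := hE2 _ hS'
        have h3 : x.1 = z0 := h2 _ (hE1 x hx)
        have h4 := (mem_cone_ge (c := tr (cc G) l) (x := x) (y := (z0, i)) h3.le).1 hzx
        rw [← h4] at hx
        exact hi hx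
      refine ⟨((z0, n), (z0, n')), ⟨rfl, rfl, fun h => hnn (congrArg Prod.snd h)⟩, hzl, hzl,
        key n hn, key n' hn', ?_⟩
      rw [h2 m hm, rt_ge (y := ((z0, n) : Pt)) le_rfl, rt_ge (y := ((z0, n') : Pt)) le_rfl]
      exact fun h => hnn (congrArg Prod.snd h)
  have hex : ∃ d, GoodStep G (tr (cc G) l) l d := exists_goodStep G hsys hbig
  have h5 : GoodStep G (tr (cc G) l) l (cc G l) := by
    rw [cc_eq]
    unfold stepC
    rw [dif_pos hex]
    exact hex.choose_spec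
  exact ⟨hag.goodStep h5, fun h => hag.big le_rfl (hbig h)⟩

/-- the system -/
theorem exists_system (G : Om → Set (Pt × Pt)) : ∃ c : Om → Pt → ℕ, Sys c ∧
    (∀ l, z0 < l → Rich c l (c l) A00) ∧
    ∀ g, Big c g (G g) → Rich c g (c g) (G g) := by
  refine ⟨cc G, fun m l hml => (goodStep_cc G l).1.1 m hml, fun l hl => ?_, fun g hg => ?_⟩
  · exact (goodStep_cc G l).1.2 _ ⟨(goodStep_cc G l).2 ⟨z0, hl⟩, Or.inl rfl⟩
  · exact (goodStep_cc G g).1.2 _ ⟨hg, Or.inr ⟨g, le_rfl, rfl⟩⟩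

/-- once the guess is big, it stays rich -/
theorem exists_system' (G : Om → Set (Pt × Pt)) : ∃ c : Om → Pt → ℕ, Sys c ∧
    (∀ l, z0 < l → Rich c l (c l) A00) ∧
    ∀ g, Big c g (G g) → ∀ l, g ≤ l → Rich c l (c l) (G g) := by
  refine ⟨cc G, fun m l hml => (goodStep_cc G l).1.1 m hml, fun l hl => ?_, fun g hg l => ?_⟩
  · exact (goodStep_cc G l).1.2 _ ⟨(goodStep_cc G l).2 ⟨z0, hl⟩, Or.inl rfl⟩
  · have hsys : Sys (cc G) := fun m l hml => (goodStep_cc G l).1.1 m hml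
    induction l using (wellFounded_lt (α := Om)).induction with
    | _ l ih =>
    intro hgl
    rcases hgl.lt_or_eq with h1 | h1
    · have h2 : Big (cc G) l (G g) := big_of_rich hsys h1 fun k hk1 hk2 => ih k hk2 hk1
      exact (goodStep_cc G l).1.2 _ ⟨h2, Or.inr ⟨g, hgl, rfl⟩⟩
    · subst h1
      exact (goodStep_cc G g).1.2 _ ⟨hg, Or.inr ⟨g, le_rfl, rfl⟩⟩

end Pool.Agent.TH567.Dia
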