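import Mathlib
import Pool.Agent.TH567.Dia.Rec

/-!
# Guessing sets of pairs of points
-/

set_option autoImplicit false

open Set

namespace Pool.Agent.TH567.Dia

open Pool.Agent.Helper292.ForceCH (Om exists_bound countable_Iio ub lt_ub ub_le)

/-- closed unbounded sets -/
def IsClub' (E : Om → Prop) : Prop :=
  (∀ a : Om, ∃ b : Om, a < b ∧ E b) ∧
    ∀ a : Om, (∃ b, b < a) → (∀ b : Om, b < a → ∃ c : Om, (b < c ∧ c < a) ∧ E c) → E a

/-- the ordinals closed under a function -/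
def Cl (f : Om → Om) (δ : Om) : Prop := (∃ b, b < δ) ∧ ∀ β < δ, f β < δ

lemma countable_Iic (x : Om) : ({b : Om | b ≤ x}).Countable := by
  have : {b : Om | b ≤ x} = insert x {b : Om | b < x} := by
    ext b; simp [le_iff_eq_or_lt]
  rw [this]
  exact (Set.countable_coe_iff.1 (countable_Iio x)).insert _

lemma club_closure (f : Om → Om) : IsClub' (Cl f) := by
  constructor
  · intro a
    have h1 : ∀ x : Om, ∃ y : Om, x < y ∧ ∀ β ≤ x, f β < y := by
      intro x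
      obtain ⟨g, hg⟩ := (countable_Iic x).exists_eq_range ⟨x, le_refl x⟩
      obtain ⟨y, hy⟩ := exists_bound fun n => max (f (g n)) (g n)
      have hgx : ∀ β ≤ x, ∃ n, g n = β := by
        intro β hβ
        have : β ∈ range g := by rw [← hg]; exact hβ
        exact this
      refine ⟨y, ?_, ?_⟩
      · obtain ⟨n, hn⟩ := hgx x le_rfl
        have := (le_max_right _ _).trans_lt (hy n)
        rwa [hn] at this
      · intro β hβ
        obtain ⟨n, hn⟩ := hgx β hβ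
        have := (le_max_left _ _).trans_lt (hy n)
        rwa [hn] at this
    choose g hg1 hg2 using h1
    let x : ℕ → Om := fun n => Nat.rec a (fun _ y => g y) n
    have hx : ∀ n, x (n + 1) = g (x n) := fun n => rfl
    refine ⟨ub x, lt_ub x 0, ⟨a, lt_ub x 0⟩, ?_⟩
    intro β hβ
    obtain ⟨n, hn⟩ := ub_le x hβ
    refine (hg2 (x n) β hn).trans ?_
    rw [← hx]
    exact lt_ub x (n + 1)
  · rintro a ⟨b, hb⟩ h
    refine ⟨⟨b, hb⟩, fun β hβ => ?_⟩
    obtain ⟨c, ⟨h1, h2⟩, _, h3⟩ := h β hβ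
    exact (h3 β h1).trans h2

/-- `G` guesses sets of pairs of points -/
def Guess (G : Om → Set (Pt × Pt)) : Prop :=
  ∀ (C : Set (Pt × Pt)) (f : Om → Om), ∃ δ, Cl f δ ∧
    ∀ p : Pt × Pt, p ∈ G δ ↔ (p ∈ C ∧ p.1.1 < δ ∧ p.2.1 < δ)

lemma exists_guess (A : Om → Om → Prop)
    (hA : ∀ S : Om → Prop, ∀ C : Om → Prop, IsClub' C → ∃ a, C a ∧ ∀ b, b < a → (S b ↔ A a b)) :
    ∃ G, Guess G := by
  obtain ⟨e, he⟩ : ∃ e : Pt × Pt → Om, Function.Injective e := by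
    have h1 : Cardinal.mk (Pt × Pt) ≤ Cardinal.mk Om := by
      have h2 : Cardinal.mk Om = Cardinal.aleph 1 := by simp
      rw [Cardinal.mk_prod, Cardinal.mk_prod, Cardinal.mk_nat, h2]
      simp
    obtain ⟨e⟩ := (Cardinal.le_def _ _).1 h1
    exact ⟨e, e.injective⟩
  refine ⟨fun δ => {p | A δ (e p) ∧ p.1.1 < δ ∧ p.2.1 < δ}, ?_⟩
  intro C f
  have h1 : ∀ β : Om, ∃ γ : Om, f β < γ ∧ ∀ p : Pt × Pt, p.1.1 ≤ β → p.2.1 ≤ β → e p < γ := by
    intro β
    have hc : ({p : Pt × Pt | p.1.1 ≤ β ∧ p.2.1 ≤ β}).Countable := by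
      have h2 : {p : Pt × Pt | p.1.1 ≤ β ∧ p.2.1 ≤ β} =
          ({b : Om | b ≤ β} ×ˢ (univ : Set ℕ)) ×ˢ ({b : Om | b ≤ β} ×ˢ (univ : Set ℕ)) := by
        ext p; simp
      rw [h2]
      exact ((countable_Iic β).prod countable_univ).prod ((countable_Iic β).prod countable_univ)
    obtain ⟨g, hg⟩ := hc.exists_eq_range ⟨((β, 0), (β, 0)), le_rfl, le_rfl⟩
    obtain ⟨γ, hγ⟩ := exists_bound fun n => max (f β) (e (g n))
    refine ⟨γ, (le_max_left _ _).trans_lt (hγ 0), fun p hp1 hp2 => ?_⟩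
    have : p ∈ range g := by rw [← hg]; exact ⟨hp1, hp2⟩
    obtain ⟨n, hn⟩ := this
    have h3 := (le_max_right _ _).trans_lt (hγ n)
    rwa [hn] at h3
  choose g hg1 hg2 using h1
  obtain ⟨δ, ⟨h2, h3⟩, h4⟩ := hA (fun b => ∃ p, e p = b ∧ p ∈ C) (Cl g) (club_closure g)
  refine ⟨δ, ⟨h2, fun β hβ => (hg1 β).trans (h3 β hβ)⟩, fun p => ?_⟩
  have key : p.1.1 < δ → p.2.1 < δ → (A δ (e p) ↔ p ∈ C) := by
    intro hp1 hp2
    have hlt : max p.1.1 p.2.1 < δ := max_lt hp1 hp2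
    have h5 := h4 (e p) ((hg2 (max p.1.1 p.2.1) p (le_max_left _ _) (le_max_right _ _)).trans
      (h3 _ hlt))
    rw [← h5]
    constructor
    · rintro ⟨p', h6, h7⟩
      rw [he h6] at h7
      exact h7
    · intro h6
      exact ⟨_, rfl, h6⟩
  constructor
  · rintro ⟨h5, h6, h7⟩
    exact ⟨(key h6 h7).1 h5, h6, h7⟩
  · rintro ⟨h5, h6, h7⟩
    exact ⟨(key h6 h7).2 h5, h6, h7⟩

/-- `C` has pairs outside of all finite unions of cones, which stay different after a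
retraction -/
def GBig (c : Om → Pt → ℕ) (C : Set (Pt × Pt)) : Prop :=
  ∀ (E : Finset Pt) (m : Om), ∃ p ∈ C, (∀ x ∈ E, p.1 ∉ cone c x) ∧ (∀ x ∈ E, p.2 ∉ cone c x) ∧
    rt c m p.1 ≠ rt c m p.2

/-- a globally big set is rich at all the levels of a tail -/
theorem exists_tail {G : Om → Set (Pt × Pt)} (hG : Guess G) {c : Om → Pt → ℕ}
    (hR : ∀ g, Big c g (G g) → ∀ l, g ≤ l → Rich c l (c l) (G g)) {C : Set (Pt × Pt)}
    (hC : GBig c C) (b0 : Om) : ∃ g, b0 < g ∧ ∀ l, g ≤ l → Rich c l (c l) C := by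
  classical
  choose w hw1 hw2 hw3 hw4 using hC
  -- bounds
  have h1 : ∀ β : Om, ∃ γ : Om, b0 < γ ∧ ∀ (E : Finset Pt) (m : Om), (∀ x ∈ E, x.1 ≤ β) →
      m ≤ β → (w E m).1.1 < γ ∧ (w E m).2.1 < γ := by
    intro β
    have hc1 : ({y : Pt | y.1 ≤ β}).Countable := by
      have h2 : {y : Pt | y.1 ≤ β} = {b : Om | b ≤ β} ×ˢ (univ : Set ℕ) := by
        ext p; simp
      rw [h2]
      exact (countable_Iic β).prod countable_univ
    have hc2 : ({E : Finset Pt | ∀ x ∈ E, x.1 ≤ β}).Countable := by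
      have h3 := Set.countable_ofPred_finite_subset hc1
      have h4 : ((fun E : Finset Pt => (E : Set Pt)) '' {E : Finset Pt | ∀ x ∈ E, x.1 ≤ β}).Countable := by
        refine h3.mono ?_
        rintro _ ⟨E, hE, rfl⟩
        exact ⟨E.finite_toSet, fun x hx => hE x hx⟩
      exact (Set.countable_of_injective_of_countable_image Finset.coe_injective.injOn) h4
    have hc : ({q : Finset Pt × Om | (∀ x ∈ q.1, x.1 ≤ β) ∧ q.2 ≤ β}).Countable := by
      have h5 : {q : Finset Pt × Om | (∀ x ∈ q.1, x.1 ≤ β) ∧ q.2 ≤ β} =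
          {E : Finset Pt | ∀ x ∈ E, x.1 ≤ β} ×ˢ {b : Om | b ≤ β} := by
        ext p; simp
      rw [h5]
      exact hc2.prod (countable_Iic β)
    obtain ⟨g, hg⟩ := hc.exists_eq_range ⟨(∅, β), by simp, le_rfl⟩
    obtain ⟨γ, hγ⟩ := exists_bound fun n => max b0 (max (w (g n).1 (g n).2).1.1
      (w (g n).1 (g n).2).2.1)
    refine ⟨γ, (le_max_left _ _).trans_lt (hγ 0), fun E m hE hm => ?_⟩
    have : (E, m) ∈ range g := by rw [← hg]; exact ⟨hE, hm⟩
    obtain ⟨n, hn⟩ := this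
    have h3 := (le_max_right _ _).trans_lt (hγ n)
    rw [hn] at h3
    exact ⟨(le_max_left _ _).trans_lt h3, (le_max_right _ _).trans_lt h3⟩
  choose f hf1 hf2 using h1
  obtain ⟨g, ⟨⟨b, hb⟩, hg1⟩, hg2⟩ := hG C f
  have hbig : Big c g (G g) := by
    refine ⟨⟨b, hb⟩, fun S hS m hm => ?_⟩
    obtain ⟨E, hE1, hE2⟩ := hS
    obtain ⟨k, hk, hE3⟩ := exists_level_bound ⟨b, hb⟩ E hE1
    obtain ⟨h3, h4⟩ := hf2 (max m k) E m (fun x hx => (hE3 x hx).trans (le_max_right _ _))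
      (le_max_left _ _)
    have h5 := hg1 (max m k) (max_lt hm hk)
    refine ⟨w E m, (hg2 _).2 ⟨hw1 E m, h3.trans h5, h4.trans h5⟩, h3.trans h5, h4.trans h5,
      fun h => ?_, fun h => ?_, hw4 E m⟩
    · obtain ⟨x, hx, hpx⟩ := hE2 _ h
      exact hw2 E m x hx hpx
    · obtain ⟨x, hx, hpx⟩ := hE2 _ h
      exact hw3 E m x hx hpx
  refine ⟨g, (hf1 b).trans (hg1 b hb), fun l hl n m S hS => ?_⟩
  obtain ⟨p, hp, h⟩ := hR g hbig l hl n m S hS
  exact ⟨p, ((hg2 p).1 hp).1, h⟩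

end Pool.Agent.TH567.Dia
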