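import Mathlib
import Pool.Agent.TH567.Dia.Guess
import Pool.Agent.TH567.TEDefs

/-!
# The space
-/

set_option autoImplicit false

open Set Topology Filter

namespace Pool.Agent.TH567.Dia

open Pool.Agent.Helper292.ForceCH (Om exists_bound countable_Iio ub lt_ub ub_le)
open OnePoint

/-- the points with the topology given by the system -/
structure Sp (_c : Om → Pt → ℕ) : Type where
  /-- the point -/
  pt : Pt

variable {c : Om → Pt → ℕ}

@[ext] lemma Sp.ext' {x y : Sp c} (h : x.pt = y.pt) : x = y := by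
  cases x; cases y; cases h; rfl

instance : TopologicalSpace (Sp c) where
  IsOpen S := Opn c {y | (⟨y⟩ : Sp c) ∈ S}
  isOpen_univ := opn_univ
  isOpen_inter _ _ := Opn.inter
  isOpen_sUnion := by
    intro C hC
    have h1 : {y | (⟨y⟩ : Sp c) ∈ ⋃₀ C} = ⋃₀ ((fun S : Set (Sp c) => {y | (⟨y⟩ : Sp c) ∈ S}) '' C) := by
      ext y; simp
    rw [h1]
    refine Opn.sUnion ?_
    rintro _ ⟨S, hS, rfl⟩
    exact hC S hS

lemma isOpen_iff (S : Set (Sp c)) : IsOpen S ↔ Opn c {y | (⟨y⟩ : Sp c) ∈ S} := Iff.rfl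

lemma isClosed_iff (S : Set (Sp c)) : IsClosed S ↔ Opn c {y | (⟨y⟩ : Sp c) ∈ S}ᶜ :=
  isOpen_compl_iff.symm

/-- the cones -/
def CC (c : Om → Pt → ℕ) (x : Pt) : Set (Sp c) := {y | y.pt ∈ cone c x}

lemma isClopen_cone (hc : Sys c) (x : Pt) : IsClopen (CC c x) :=
  ⟨(isClosed_iff _).2 (hc.loc_cone x).2, (hc.loc_cone x).1⟩

lemma cone_mem_nhds (hc : Sys c) (x : Sp c) : CC c x.pt ∈ 𝓝 x :=
  (isClopen_cone hc x.pt).isOpen.mem_nhds (self_mem (c := c) x.pt)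

lemma isCompact_cone (hc : Sys c) (x : Pt) : IsCompact (CC c x) := by
  refine pt_induction (Q := fun x => IsCompact (CC c x)) ?_ x
  intro x ih
  rw [isCompact_iff_ultrafilter_le_nhds]
  intro f hf
  by_cases hfx : (f : Filter (Sp c)) ≤ 𝓝 (⟨x⟩ : Sp c)
  · exact ⟨⟨x⟩, self_mem x, hfx⟩
  · obtain ⟨U, hU, hUf⟩ : ∃ U ∈ 𝓝 (⟨x⟩ : Sp c), U ∉ (f : Filter (Sp c)) := by
      by_contra h
      push Not at h
      exact hfx h
    obtain ⟨V, hVU, hV, hxV⟩ := mem_nhds_iff.1 hU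
    have hVf : V ∉ (f : Filter (Sp c)) := fun h => hUf (mem_of_superset h hVU)
    have h1 : (CC c x \ V) ∈ (f : Filter (Sp c)) := by
      have h2 : Vᶜ ∈ (f : Filter (Sp c)) := Ultrafilter.compl_mem_iff_notMem.2 hVf
      have h3 : CC c x ∈ (f : Filter (Sp c)) := le_principal_iff.1 hf
      exact inter_mem h3 h2
    obtain ⟨E, hE1, hE2⟩ := hV x hxV
    have h4 : (⋃ e ∈ (E : Set Pt), CC c e) ∈ (f : Filter (Sp c)) := by
      refine mem_of_superset h1 ?_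
      rintro z ⟨hz1, hz2⟩
      obtain ⟨e, he, hze⟩ := hE2 z.pt ⟨hz1, hz2⟩
      simp only [mem_iUnion]
      exact ⟨e, he, hze⟩
    rw [Ultrafilter.mem_coe, Ultrafilter.finite_biUnion_mem_iff E.finite_toSet] at h4
    obtain ⟨e, he, hef⟩ := h4
    obtain ⟨y, hy, hfy⟩ := isCompact_iff_ultrafilter_le_nhds.1 (ih e (hE1 e he)) f
      (le_principal_iff.2 hef)
    refine ⟨y, ?_, hfy⟩
    exact (isClopen_cone hc x).isClosed.mem_of_tendsto (f := fun z : Sp c => z) (b := (f : Filter (Sp c)))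
      hfy (le_principal_iff.1 hf)

theorem t2 (hc : Sys c) : T2Space (Sp c) := by
  refine ⟨fun x y hxy => ?_⟩
  obtain ⟨U, hU, hx, hy⟩ := exists_sep hc (x := x.pt) (y := y.pt) fun h => hxy (Sp.ext' h)
  exact ⟨{z | z.pt ∈ U}, {z | z.pt ∈ Uᶜ}, hU.1, hU.2, hx, hy, disjoint_compl_right⟩

theorem wlc (hc : Sys c) : WeaklyLocallyCompactSpace (Sp c) :=
  ⟨fun x => ⟨_, isCompact_cone hc x.pt, cone_mem_nhds hc x⟩⟩

/-- compact sets are covered by finitely many cones -/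
lemma cover_of_compact (hc : Sys c) {K : Set (Sp c)} (hK : IsCompact K) :
    ∃ E : Finset Pt, ∀ z ∈ K, ∃ x ∈ E, z.pt ∈ cone c x := by
  classical
  obtain ⟨E, hE⟩ := hK.elim_nhds_subcover (fun x : Sp c => CC c x.pt)
    (fun x _ => cone_mem_nhds hc x)
  refine ⟨E.image Sp.pt, fun z hz => ?_⟩
  have h1 := hE.2 hz
  simp only [mem_iUnion] at h1
  obtain ⟨e, he, hze⟩ := h1
  exact ⟨e.pt, Finset.mem_image_of_mem _ he, hze⟩

lemma exists_above (m : Om) (F : Finset Pt) : ∃ l : Om, m ≤ l ∧ ∀ x ∈ F, x.1 < l := by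
  classical
  induction F using Finset.induction_on with
  | empty => exact ⟨m, le_rfl, by simp⟩
  | insert a F ha ih =>
    obtain ⟨l, hl, h⟩ := ih
    obtain ⟨l', hl'⟩ := exists_bound fun _ => max l a.1
    refine ⟨l', hl.trans ((le_max_left _ _).trans (hl' 0).le), fun x hx => ?_⟩
    rcases Finset.mem_insert.1 hx with rfl | hx
    · exact (le_max_right _ _).trans_lt (hl' 0)
    · exact (h x hx).trans_le ((le_max_left _ _).trans (hl' 0).le)

lemma small_of_cover {K : Set (Sp c)} {E : Finset Pt} (h : ∀ z ∈ K, ∃ x ∈ E, z.pt ∈ cone c x)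
    (l0 : Om) : ∃ l, l0 ≤ l ∧ Small c l {y | (⟨y⟩ : Sp c) ∈ K} := by
  obtain ⟨l, hl, h2⟩ := exists_above l0 E
  exact ⟨l, hl, E, h2, fun z hz => h _ hz⟩

lemma compact_of_small (hc : Sys c) {l : Om} {K : Set (Sp c)} (hK : IsClosed K)
    (h : Small c l {y | (⟨y⟩ : Sp c) ∈ K}) : IsCompact K := by
  obtain ⟨E, _, hE⟩ := h
  have h1 : IsCompact (⋃ e ∈ (E : Set Pt), CC c e) :=
    E.finite_toSet.isCompact_biUnion fun e _ => isCompact_cone hc e
  refine h1.of_isClosed_subset hK ?_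
  intro z hz
  obtain ⟨e, he, hze⟩ := hE z.pt hz
  simp only [mem_iUnion]
  exact ⟨e, he, hze⟩

/-! ### The one point compactification -/

/-- the compact space -/
abbrev XX (c : Om → Pt → ℕ) : Type := OnePoint (Sp c)

/-- the retraction -/
noncomputable def rtS (c : Om → Pt → ℕ) (l : Om) (x : Sp c) : Sp c := ⟨rt c l x.pt⟩

/-- the extension of the retraction -/
noncomputable def RR (c : Om → Pt → ℕ) (l : Om) : XX c → XX c := OnePoint.map (rtS c l)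

/-- the tail -/
def TT (c : Om → Pt → ℕ) (l : Om) : Set (XX c) :=
  {x | ∀ y : Sp c, x = (y : XX c) → l ≤ y.pt.1}

lemma coe_mem_TT {l : Om} {y : Sp c} : (y : XX c) ∈ TT c l ↔ l ≤ y.pt.1 := by
  constructor
  · intro h
    exact h y rfl
  · intro h z hz
    rw [← OnePoint.coe_injective hz]
    exact h

lemma infty_mem_TT {l : Om} : (∞ : XX c) ∈ TT c l := fun y hy =>
  absurd hy.symm (OnePoint.coe_ne_infty y)

lemma opn_below (l : Om) : Opn c {y | y.1 < l} := by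
  intro y hy
  refine (small_empty y.1).mono ?_
  rintro z ⟨hz, hzl⟩
  exact absurd ((cone_le hz).trans_lt hy) hzl

lemma isClosed_TT (l : Om) : IsClosed (TT c l) := by
  rw [OnePoint.isClosed_iff_of_mem infty_mem_TT, isClosed_iff]
  have h1 := opn_below (c := c) l
  convert h1 using 1
  ext y
  show ¬ ((⟨y⟩ : Sp c) : XX c) ∈ TT c l ↔ _
  rw [coe_mem_TT]
  exact not_le

lemma tail_of_nhds (hc : Sys c) {U : Set (XX c)} (hU : U ∈ 𝓝 (∞ : XX c)) : ∃ l, TT c l ⊆ U := by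
  obtain ⟨V, hVU, hV, hxV⟩ := mem_nhds_iff.1 hU
  have h1 := ((OnePoint.isOpen_iff_of_mem' hxV).1 hV).1
  obtain ⟨E, hE⟩ := cover_of_compact hc h1
  obtain ⟨l, _, hl⟩ := small_of_cover hE z0
  refine ⟨l, fun x hx => ?_⟩
  induction x using OnePoint.rec with
  | infty => exact hVU hxV
  | coe y =>
    by_contra h
    have h2 : y ∈ ((↑) ⁻¹' V : Set (Sp c))ᶜ := fun h3 => h (hVU h3)
    exact absurd (hl.lt (z := y.pt) h2) (not_lt.2 (coe_mem_TT.1 hx))

lemma infty_mem_of_closed (hc : Sys c) {B : Set (XX c)} (hB : IsClosed B) {l : Om}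
    (h : ∀ y : Sp c, l ≤ y.pt.1 → (y : XX c) ∈ B) : (∞ : XX c) ∈ B := by
  by_contra h1
  obtain ⟨l', hl'⟩ := tail_of_nhds hc (hB.isOpen_compl.mem_nhds h1)
  have h3 := h ⟨(max l l', 0)⟩ (le_max_left _ _)
  exact hl' (coe_mem_TT.2 (le_max_right l l')) h3

lemma TT_subset (hc : Sys c) {B : Set (XX c)} (hB : IsClosed B) {l : Om}
    (h : ∀ y : Sp c, l ≤ y.pt.1 → (y : XX c) ∈ B) : TT c l ⊆ B := by
  intro x hx
  induction x using OnePoint.rec with
  | infty => exact infty_mem_of_closed hc hB h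
  | coe y => exact h y (coe_mem_TT.1 hx)

lemma continuous_rtS (hc : Sys c) (l : Om) : Continuous (rtS c l) :=
  ⟨fun _ hS => Opn.preimage hc hS l⟩

lemma continuous_RR (hc : Sys c) (l : Om) : Continuous (RR c l) := by
  refine OnePoint.continuous_map (continuous_rtS hc l) ?_
  have := t2 hc
  rw [coclosedCompact_eq_cocompact]
  rw [(hasBasis_cocompact (X := Sp c)).tendsto_iff hasBasis_cocompact]
  intro K hK
  obtain ⟨E, hE⟩ := cover_of_compact hc hK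
  obtain ⟨l', h1, h2⟩ := small_of_cover hE l
  refine ⟨rtS c l ⁻¹' K, ?_, fun x hx => hx⟩
  exact compact_of_small hc (hK.isClosed.preimage (continuous_rtS hc l)) (h2.preimage hc h1)

/-! ### Density -/

lemma mem_of_closed {S : Set (Sp c)} (hS : IsClosed S) {y : Sp c}
    (h : ∀ B, Small c y.pt.1 B → ∃ z ∈ cone c y.pt, z ∉ B ∧ (⟨z⟩ : Sp c) ∈ S) : y ∈ S := by
  by_contra h1
  have h2 := (isClosed_iff _).1 hS y.pt h1
  obtain ⟨z, hz1, hz2, hz3⟩ := h _ h2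
  exact hz2 ⟨hz1, fun h3 => h3 hz3⟩

/-- the levels are dense in the tails -/
lemma level_dense (hc : Sys c) (h0 : ∀ l, z0 < l → Rich c l (c l) A00) {S : Set (Sp c)}
    (hS : IsClosed S) {l : Om} (h : ∀ n : ℕ, (⟨(l, n)⟩ : Sp c) ∈ S) (y : Sp c)
    (hy : l ≤ y.pt.1) : y ∈ S := by
  rcases hy.lt_or_eq with h1 | h1
  · refine mem_of_closed hS (y := y) fun B hB => ?_
    have h2 : Small c y.pt.1 (rt c l ⁻¹' B ∪ Df c l y.pt.1) :=
      (hB.preimage hc hy).union ((hc l _ h1).level hy)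
    obtain ⟨p, hp, h3, h4, h5, h6, h7, h8⟩ := h0 _ ((z0_le l).trans_lt h1)
      y.pt.2 0 _ h2
    refine ⟨rt c l p.1, ?_, fun h9 => h5 (Or.inl h9), ?_⟩
    · rw [mem_cone_lt (rt_lev_lt h1 h3), ← h7]
      rcases lt_or_ge p.1.1 l with h9 | h9
      · by_contra h10
        exact h5 (Or.inr ⟨h9, fun h => h10 h.symm⟩)
      · rw [rt_ge h9]
    · have h9 : (rt c l p.1) = (l, (rt c l p.1).2) := by
        rcases lt_or_ge p.1.1 l with h9 | h9
        · rw [rt_lt h9]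
        · rw [rt_ge h9]
          have h10 : p.1.1 = z0 := hp.1
          have h11 : p.1.1 = l := le_antisymm (h10.le.trans (z0_le l)) h9
          exact Prod.ext h11 rfl
      rw [h9]
      exact h _
  · have h2 : y = (⟨(l, y.pt.2)⟩ : Sp c) := Sp.ext' (Prod.ext h1.symm rfl)
    rw [h2]
    exact h _

/-! ### Dichotomies -/

lemma dich1 {G : Om → Set (Pt × Pt)} (hG : Guess G)
    (hR : ∀ g, Big c g (G g) → ∀ l, g ≤ l → Rich c l (c l) (G g)) {B : Set (Sp c)}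
    (hB : IsClosed B) :
    (∃ E : Finset Pt, ∀ z ∈ B, ∃ x ∈ E, z.pt ∈ cone c x) ∨
      ∃ l, ∀ y : Sp c, l ≤ y.pt.1 → y ∈ B := by
  classical
  by_cases h : ∃ E : Finset Pt, ∀ z ∈ B, ∃ x ∈ E, z.pt ∈ cone c x
  · exact Or.inl h
  right
  have hbig : GBig c {p : Pt × Pt | (⟨p.1⟩ : Sp c) ∈ B ∧ (⟨p.2⟩ : Sp c) ∈ B} := by
    intro E m
    by_contra h1
    push Not at h1
    apply h
    by_cases h2 : ∃ x : Sp c, x ∈ B ∧ ∀ e ∈ E, x.pt ∉ cone c e
    · obtain ⟨x, hx, hxE⟩ := h2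
      refine ⟨insert (rt c m x.pt) E, fun z hz => ?_⟩
      by_cases h3 : ∀ e ∈ E, z.pt ∉ cone c e
      · refine ⟨rt c m x.pt, Finset.mem_insert_self _ _, ?_⟩
        have h4 : rt c m x.pt = rt c m z.pt := h1 (x.pt, z.pt) ⟨hx, hz⟩ hxE h3
        rw [h4]
        rcases lt_or_ge z.pt.1 m with h5 | h5
        · rw [mem_cone]
          have h6 : (rt c m z.pt).1 = m := by rw [rt_lt h5]
          rw [h6]
        · rw [rt_ge h5]; exact self_mem (c := c) z.pt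
      · push Not at h3
        obtain ⟨e, he, hze⟩ := h3
        exact ⟨e, Finset.mem_insert_of_mem he, hze⟩
    · push Not at h2
      exact ⟨E, h2⟩
  obtain ⟨g, _, hg⟩ := exists_tail hG hR hbig z0
  refine ⟨g, fun y hy => ?_⟩
  refine mem_of_closed hB (y := y) fun S hS => ?_
  obtain ⟨p, hp, h3, h4, h5, h6, h7, h8⟩ := hg _ hy y.pt.2 0 S hS
  exact ⟨p.1, (mem_cone_lt h3).2 h7, h5, hp.1⟩

lemma dich2 (hc : Sys c) (h0 : ∀ l, z0 < l → Rich c l (c l) A00) {G : Om → Set (Pt × Pt)}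
    (hG : Guess G)
    (hR : ∀ g, Big c g (G g) → ∀ l, g ≤ l → Rich c l (c l) (G g)) {F : Set (Sp c × Sp c)}
    (hF : IsClosed F) :
    (∃ l, ∀ p ∈ F, l ≤ p.1.pt.1 → l ≤ p.2.pt.1 → p.1 = p.2) ∨
      ∃ l, ∀ x y : Sp c, l ≤ x.pt.1 → l ≤ y.pt.1 → (x, y) ∈ F := by
  classical
  by_cases h : ∃ l, ∀ p ∈ F, l ≤ p.1.pt.1 → l ≤ p.2.pt.1 → p.1 = p.2
  · exact Or.inl h
  right
  have hbig : GBig c {p : Pt × Pt | ((⟨p.1⟩ : Sp c), (⟨p.2⟩ : Sp c)) ∈ F} := by
    intro E m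
    obtain ⟨l, hl, hE⟩ := exists_above m E
    push Not at h
    obtain ⟨p, hp, h1, h2, h3⟩ := h l
    refine ⟨(p.1.pt, p.2.pt), hp, fun x hx h4 => ?_, fun x hx h4 => ?_, ?_⟩
    · exact absurd ((cone_le h4).trans_lt (hE x hx)) (not_lt.2 h1)
    · exact absurd ((cone_le h4).trans_lt (hE x hx)) (not_lt.2 h2)
    · show rt c m p.1.pt ≠ rt c m p.2.pt
      rw [rt_ge (hl.trans h1), rt_ge (hl.trans h2)]
      exact fun h4 => h3 (Sp.ext' h4)
  obtain ⟨g, _, hg⟩ := exists_tail hG hR hbig z0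
  refine ⟨g, ?_⟩
  -- the pairs of points of the level `g`
  have h1 : ∀ n m : ℕ, ((⟨(g, n)⟩ : Sp c), (⟨(g, m)⟩ : Sp c)) ∈ F := by
    intro n m
    by_contra hnot
    have hnot' : Fᶜ ∈ 𝓝 ((⟨(g, n)⟩ : Sp c), (⟨(g, m)⟩ : Sp c)) :=
      hF.isOpen_compl.mem_nhds hnot
    rw [nhds_prod_eq, mem_prod_iff] at hnot'
    obtain ⟨U, hU, V, hV, hUV⟩ := hnot'
    obtain ⟨U', hU', hU'o, hxU'⟩ := mem_nhds_iff.1 hU
    obtain ⟨V', hV', hV'o, hxV'⟩ := mem_nhds_iff.1 hV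
    have h2 : Small c g (cone c (g, n) \ {y | (⟨y⟩ : Sp c) ∈ U'}) := hU'o _ hxU'
    have h3 : Small c g (cone c (g, m) \ {y | (⟨y⟩ : Sp c) ∈ V'}) := hV'o _ hxV'
    obtain ⟨p, hp, h4, h5, h6, h7, h8, h9⟩ := hg g le_rfl n m _ (h2.union h3)
    have h10 : (⟨p.1⟩ : Sp c) ∈ U' := by
      by_contra h11
      exact h6 (Or.inl ⟨(mem_cone_lt h4).2 h8, h11⟩)
    have h11 : (⟨p.2⟩ : Sp c) ∈ V' := by
      by_contra h11
      exact h7 (Or.inr ⟨(mem_cone_lt h5).2 h9, h11⟩)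
    exact hUV (mk_mem_prod (hU' h10) (hV' h11)) hp
  have h2 : ∀ (x : Sp c) (m : ℕ), g ≤ x.pt.1 → (x, (⟨(g, m)⟩ : Sp c)) ∈ F := by
    intro x m hx
    exact level_dense hc h0 (S := {x : Sp c | (x, (⟨(g, m)⟩ : Sp c)) ∈ F})
      (hF.preimage (by fun_prop)) (l := g) (fun n => h1 n m) x hx
  intro x y hx hy
  exact level_dense hc h0 (S := {y : Sp c | (x, y) ∈ F})
      (hF.preimage (by fun_prop)) (l := g) (fun n => h2 x n hx) y hy

end Pool.Agent.TH567.Dia
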