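import Mathlib
import Pool.Agent.TH567.Dia.Space
import Pool.Agent.TH558.J193b

/-!
# The compact space satisfies the axioms
-/

set_option autoImplicit false

open Set Topology Filter

namespace Pool.Agent.TH567.Dia

open Pool.Agent.Helper292.ForceCH (Om exists_bound countable_Iio ub lt_ub ub_le)
open OnePoint

variable {c : Om → Pt → ℕ}

theorem ax (hc : Sys c) (h0 : ∀ l, z0 < l → Rich c l (c l) A00) {G : Om → Set (Pt × Pt)}
    (hG : Guess G) (hR : ∀ g, Big c g (G g) → ∀ l, g ≤ l → Rich c l (c l) (G g)) :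
    TE.Ax (XX c) Om ∞ (TT c) (RR c) where
  closedT := isClosed_TT
  antiT := fun l l' hll x hx y hy => hll.trans (hx y hy)
  memT := fun l => infty_mem_TT
  neT := fun l => ⟨((⟨(l, 0)⟩ : Sp c) : XX c), coe_mem_TT.2 le_rfl, OnePoint.coe_ne_infty _⟩
  nhdsT := fun U hU => tail_of_nhds hc hU
  countT := by
    intro l
    have h1 : ((fun y : Pt => ((⟨y⟩ : Sp c) : XX c)) '' {y | y.1 < l}).Countable :=
      (countable_below l).image _
    refine h1.mono ?_
    intro x hx
    induction x using OnePoint.rec with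
    | infty => exact absurd infty_mem_TT hx
    | coe y =>
      refine ⟨y.pt, ?_, rfl⟩
      by_contra h
      exact hx (coe_mem_TT.2 (not_lt.1 h))
  cofT := by
    intro s
    obtain ⟨a, ha⟩ := exists_bound s
    exact ⟨a, fun n => (ha n).le⟩
  contR := continuous_RR hc
  R_mem := by
    intro l x
    induction x using OnePoint.rec with
    | infty => exact infty_mem_TT
    | coe y =>
      show ((rtS c l y : Sp c) : XX c) ∈ TT c l
      rw [coe_mem_TT]
      exact le_rt l y.pt
  R_fix := by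
    intro l x hx
    induction x using OnePoint.rec with
    | infty => rfl
    | coe y =>
      show ((rtS c l y : Sp c) : XX c) = y
      have h1 : rtS c l y = y := Sp.ext' (rt_ge (coe_mem_TT.1 hx))
      rw [h1]
  closed1 := by
    intro B hB
    have hB' : IsClosed ((↑) ⁻¹' B : Set (Sp c)) := hB.preimage OnePoint.continuous_coe
    rcases dich1 hG hR hB' with ⟨E, hE⟩ | ⟨l, hl⟩
    · obtain ⟨l, _, hl⟩ := small_of_cover hE z0
      refine ⟨l, Or.inr ?_⟩
      rintro x ⟨hx, hxl⟩
      induction x using OnePoint.rec with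
      | infty => rfl
      | coe y => exact absurd (hl.lt (z := y.pt) hx) (not_lt.2 (coe_mem_TT.1 hxl))
    · exact ⟨l, Or.inl (TT_subset hc hB hl)⟩
  closed2 := by
    intro F hF
    have hF' : IsClosed {p : Sp c × Sp c | (((p.1 : Sp c) : XX c), ((p.2 : Sp c) : XX c)) ∈ F} :=
      hF.preimage ((OnePoint.continuous_coe.comp continuous_fst).prodMk
        (OnePoint.continuous_coe.comp continuous_snd))
    rcases dich2 hc h0 hG hR hF' with ⟨l, hl⟩ | ⟨l, hl⟩
    · refine ⟨l, Or.inr ?_⟩
      rintro ⟨x, y⟩ hp hx hy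
      induction x using OnePoint.rec with
      | infty => exact Or.inr (Or.inl rfl)
      | coe x =>
        induction y using OnePoint.rec with
        | infty => exact Or.inr (Or.inr rfl)
        | coe y =>
          left
          exact congrArg _ (hl (x, y) hp (coe_mem_TT.1 hx) (coe_mem_TT.1 hy))
    · refine ⟨l, Or.inl ?_⟩
      have h1 : ∀ x : Sp c, l ≤ x.pt.1 → TT c l ⊆ {y : XX c | ((x : XX c), y) ∈ F} := by
        intro x hx
        exact TT_subset hc (hF.preimage (by fun_prop)) fun y hy => hl x y hx hy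
      have h2 : ∀ y ∈ TT c l, TT c l ⊆ {x : XX c | (x, y) ∈ F} := by
        intro y hy
        exact TT_subset hc (hF.preimage (by fun_prop)) fun x hx => h1 x hx hy
      rintro ⟨x, y⟩ ⟨hx, hy⟩
      exact h2 y hy hx

theorem totallyDisconnected (hc : Sys c) : TotallyDisconnectedSpace (XX c) := by
  have := t2 hc
  have key : ∀ (a : Sp c) (x : XX c), x ≠ (a : XX c) → ∃ U : Set (XX c), IsClopen U ∧
      (a : XX c) ∈ U ∧ x ∉ U := by
    intro a x hx
    obtain ⟨V, hV1, hV2, hV3⟩ : ∃ V : Set (Sp c), IsClopen V ∧ a ∈ V ∧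
        x ∉ ((↑) '' V : Set (XX c)) := by
      induction x using OnePoint.rec with
      | infty => exact ⟨univ, isClopen_univ, mem_univ _, OnePoint.infty_notMem_image_coe⟩
      | coe b =>
        obtain ⟨U, hU, h1, h2⟩ := exists_sep hc (x := a.pt) (y := b.pt)
          fun h => hx (congrArg _ (Sp.ext' h.symm))
        refine ⟨{z | z.pt ∈ U}, ⟨(isClosed_iff _).2 hU.2, hU.1⟩, h1, ?_⟩
        rintro ⟨z, hz, hzb⟩
        rw [OnePoint.coe_injective hzb] at hz
        exact h2 hz
    have hcl := isClopen_cone hc a.pt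
    refine ⟨(↑) '' (CC c a.pt ∩ V), ⟨?_, ?_⟩, ⟨a, ⟨self_mem (c := c) a.pt, hV2⟩, rfl⟩, ?_⟩
    · rw [OnePoint.isClosed_image_coe]
      exact ⟨hcl.isClosed.inter hV1.isClosed, (isCompact_cone hc a.pt).inter_right hV1.isClosed⟩
    · rw [OnePoint.isOpen_image_coe]
      exact hcl.isOpen.inter hV1.isOpen
    · rintro ⟨z, hz, hzx⟩
      exact hV3 ⟨z, hz.2, hzx⟩
  have hts : TotallySeparatedSpace (XX c) := by
    rw [totallySeparatedSpace_iff_exists_isClopen]
    intro x y hxy
    show ∃ U : Set (XX c), IsClopen U ∧ x ∈ U ∧ y ∈ Uᶜ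
    induction x using OnePoint.rec with
    | infty =>
      induction y using OnePoint.rec with
      | infty => exact absurd rfl hxy
      | coe b =>
        obtain ⟨U, h1, h2, h3⟩ := key b ∞ hxy
        exact ⟨Uᶜ, h1.compl, h3, fun h => h h2⟩
    | coe a =>
      obtain ⟨U, h1, h2, h3⟩ := key a y hxy.symm
      exact ⟨U, h1, h2, h3⟩
  infer_instance

theorem separable (hc : Sys c) (h0 : ∀ l, z0 < l → Rich c l (c l) A00) :
    TopologicalSpace.SeparableSpace (XX c) := by
  refine ⟨⟨range fun n : ℕ => ((⟨(z0, n)⟩ : Sp c) : XX c), countable_range _, ?_⟩⟩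
  have hcl : IsClosed (closure (range fun n : ℕ => ((⟨(z0, n)⟩ : Sp c) : XX c))) := isClosed_closure
  have h1 := hcl.preimage (OnePoint.continuous_coe (X := Sp c))
  have h2 : ∀ y : Sp c, z0 ≤ y.pt.1 → (y : XX c) ∈
      closure (range fun n : ℕ => ((⟨(z0, n)⟩ : Sp c) : XX c)) := by
    intro y hy
    exact level_dense hc h0 h1 (l := z0) (fun n => subset_closure ⟨n, rfl⟩) y hy
  intro x
  refine TT_subset hc hcl h2 ?_
  induction x using OnePoint.rec with
  | infty => exact infty_mem_TT
  | coe y => exact coe_mem_TT.2 (z0_le _)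

theorem not_metrizable {X O : Type} [TopologicalSpace X] [LinearOrder O] {inf : X} {T : O → Set X}
    {R : O → X → X} (h : TE.Ax X O inf T R) : ¬ TopologicalSpace.MetrizableSpace X := by
  intro hm
  obtain ⟨s, hs⟩ := (𝓝 inf).exists_antitone_basis
  have h1 : ∀ n, ∃ l, T l ⊆ s n := fun n => h.nhdsT _ (hs.1.mem_of_mem trivial)
  choose l hl using h1
  obtain ⟨L, hL⟩ := h.cofT l
  obtain ⟨x, hx, hxi⟩ := h.neT L
  have h2 : {x}ᶜ ∈ 𝓝 inf := isOpen_compl_singleton.mem_nhds hxi.symm
  obtain ⟨n, _, hn⟩ := hs.1.mem_iff.1 h2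
  exact hn (hl n (h.antiT _ _ (hL n) hx)) rfl

/-- the main theorem -/
theorem exists_space {G : Om → Set (Pt × Pt)} (hG : Guess G) :
    ∃ (X : Type) (_ : TopologicalSpace X), CompactSpace X ∧ T2Space X ∧
      TopologicalSpace.SeparableSpace X ∧ ¬ TopologicalSpace.MetrizableSpace X ∧
      ∀ F : Set (X × X), IsClosed F → TE.TEmb F := by
  obtain ⟨c, hc, h0, hR⟩ := exists_system' G
  have h1 := t2 hc
  have h2 := wlc hc
  have h3 := totallyDisconnected hc
  have h4 := ax hc h0 hG hR
  exact ⟨XX c, inferInstance, inferInstance, inferInstance, separable hc h0, not_metrizable h4,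
    fun F hF => Pool.Agent.TH558.J193.square h4 F hF⟩

end Pool.Agent.TH567.Dia
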